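import Pool.Agent.MP_09973c_nt.H58.SpecA

/-!
Function field kit for the curve case.
-/

set_option autoImplicit false

namespace Pool.Agent.MP_09973c_nt.H69

open Polynomial Finset IntermediateField Pool.Agent.MP_09973c_nt.H58 Pool.Agent.MP_09973c_nt.H31
open scoped IntermediateField.algebraAdjoinAdjoin

section Ev

variable {A B B' : Type} [CommRing A] [CommRing B] [CommRing B']

theorem ev2_map (h : B →+* B') (φ : A →+* B) (f : A[X][X]) (z θ : B) :
    h (ev2 φ f z θ) = ev2 (h.comp φ) f (h z) (h θ) := by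
  unfold ev2
  rw [hom_eval₂]
  congr 1
  ext <;> simp

theorem ev2_id_map (φ : A →+* B) (f : A[X][X]) (z θ : B) :
    ev2 (RingHom.id B) (f.map (mapRingHom φ)) z θ = ev2 φ f z θ := by
  unfold ev2
  rw [eval₂_map]
  congr 1
  ext <;> simp

theorem ev2_C (φ : A →+* B) (r : A[X]) (z θ : B) : ev2 φ (C r) z θ = r.eval₂ φ z := by
  simp [ev2]

theorem ev2_mul (φ : A →+* B) (f g : A[X][X]) (z θ : B) :
    ev2 φ (f * g) z θ = ev2 φ f z θ * ev2 φ g z θ := by
  simp [ev2, eval₂_mul]

theorem ev2_add (φ : A →+* B) (f g : A[X][X]) (z θ : B) :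
    ev2 φ (f + g) z θ = ev2 φ f z θ + ev2 φ g z θ := by
  simp [ev2, eval₂_add]

theorem ev2_sub (φ : A →+* B) (f g : A[X][X]) (z θ : B) :
    ev2 φ (f - g) z θ = ev2 φ f z θ - ev2 φ g z θ := by
  simp [ev2, eval₂_sub]

theorem ev2_eq_eval (φ : A →+* B) (f : A[X][X]) (z θ : B) :
    ev2 φ f z θ = (f.map (eval₂RingHom φ z)).eval θ := by
  rw [ev2, eval_map]

theorem mono_map (h : A →+* B) {p q j m T : ℕ} (k : PK p q j m T) (u t : ℕ → A) :
    h (mono k u t) = mono k (fun i => h (u i)) (fun i => h (t i)) := by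
  unfold mono
  rw [map_mul, map_pow, map_bas]
  congr 2
  funext i
  unfold pv
  split_ifs <;> rfl

end Ev

variable {k Ω : Type} [Field k] [Field Ω] [Algebra k Ω]

/-- Integral over the polynomial ring in `z`. -/
abbrev In (k : Type) {Ω : Type} [Field k] [Field Ω] [Algebra k Ω] (z x : Ω) : Prop :=
  IsIntegral (Algebra.adjoin k {z}) x

theorem adj_of_mem {S : Set Ω} {x y : Ω} (hx : x ∈ S) (h : y ∈ adjoin k {x}) : y ∈ adjoin k S :=
  adjoin.mono _ _ _ (Set.singleton_subset_iff.2 hx) h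

theorem alg_of_mem {S : Set Ω} {x : Ω} (hx : x ∈ S) (h : Algebra.IsAlgebraic (adjoin k {x}) Ω) :
    Algebra.IsAlgebraic (adjoin k S) Ω :=
  isAlgebraic_mono (Set.singleton_subset_iff.2 (subset_adjoin k _ hx)) h

theorem In.self (z : Ω) : In k z z :=
  isIntegral_algebraMap (x := (⟨z, Algebra.self_mem_adjoin_singleton k z⟩ : Algebra.adjoin k {z}))

theorem In.const (z : Ω) (c : k) : In k z (algebraMap k Ω c) :=
  isIntegral_algebraMap (x := algebraMap k (Algebra.adjoin k {z}) c)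

theorem In.gal {z x : Ω} (h : In k z x) {g : Ω ≃ₐ[k] Ω} (hg : g ∈ Fix k {z}) : In k z (g x) :=
  IsIntegral.map_of_comp_eq (RingHom.id _) (g : Ω →+* Ω) (RingHom.ext fun y =>
    (fix_of_mem_adjoin hg (algebra_adjoin_le_adjoin k {z} y.2)).symm) h

theorem In.ev2 {z θ : Ω} (h : In k z θ) (f : k[X][X]) : In k z (ev2 (algebraMap k Ω) f z θ) := by
  let B := integralClosure (Algebra.adjoin k {z}) Ω
  let c : k →+* B := (algebraMap k Ω).codRestrict B.toSubring fun c => In.const z c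
  have := ev2_map B.toSubring.subtype c f ⟨z, In.self z⟩ ⟨θ, h⟩
  exact this ▸ (H58.ev2 c f ⟨z, In.self z⟩ ⟨θ, h⟩).2

theorem isAlgebraic_change {S S' : Set Ω} (h : ∀ x ∈ S, IsAlgebraic (adjoin k S') x)
    (hS : Algebra.IsAlgebraic (adjoin k S) Ω) : Algebra.IsAlgebraic (adjoin k S') Ω := by
  have h1 := isAlgebraic_mono (S' := S' ∪ S)
    (Set.subset_union_right.trans (subset_adjoin k _)) hS
  rw [← adjoin_adjoin_left] at h1
  have : Algebra.IsAlgebraic (adjoin (adjoin k S') S) Ω := h1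
  have := IntermediateField.isAlgebraic_adjoin fun x hx => (h x hx).isIntegral
  exact Algebra.IsAlgebraic.trans _ (adjoin (adjoin k S') S) _

theorem In.alg {z x : Ω} (h : In k z x) : IsAlgebraic (adjoin k {z}) x :=
  isAlgebraic_adjoin_iff.2 h.isAlgebraic

theorem mem_range_of_In {z x : Ω} (hz : Transcendental k z) (hx : x ∈ adjoin k {z})
    (h : In k z x) : ∃ P : k[X], aeval z P = x := by
  have : IsIntegrallyClosed (Algebra.adjoin k {z}) :=
    IsIntegrallyClosed.of_equiv (algEquivOfTranscendental k z hz).toRingEquiv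
  have h1 : IsIntegral (Algebra.adjoin k {z}) (⟨x, hx⟩ : adjoin k {z}) :=
    (isIntegral_algHom_iff (IsScalarTower.toAlgHom _ (adjoin k {z}) Ω) Subtype.val_injective).1 h
  obtain ⟨y, hy⟩ := IsIntegrallyClosed.isIntegral_iff.1 h1
  obtain ⟨P, hP⟩ := (Algebra.adjoin_singleton_eq_range_aeval k z).le y.2
  exact ⟨P, hP.trans (congrArg Subtype.val hy)⟩

/-- Elements of `k(z, θ)` as quotients. -/
theorem rep {z θ x : Ω} (hθ : IsAlgebraic (adjoin k {z}) θ) (hx : x ∈ adjoin k {θ, z}) :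
    ∃ (ψ : k[X][X]) (r : k[X]), aeval z r ≠ 0 ∧ x * aeval z r = ev2 (algebraMap k Ω) ψ z θ := by
  rw [Set.pair_comm, Set.insert_eq, ← adjoin_adjoin_left, mem_restrictScalars,
    ← mem_toSubalgebra, adjoin_simple_toSubalgebra_of_isAlgebraic hθ,
    Algebra.adjoin_singleton_eq_range_aeval] at hx
  obtain ⟨P, rfl⟩ := hx
  induction P using Polynomial.induction_on' with
  | add P Q hP hQ =>
    obtain ⟨ψ, r, hr, h⟩ := hP
    obtain ⟨ψ', r', hr', h'⟩ := hQ
    refine ⟨ψ * C r' + ψ' * C r, r * r', by rw [map_mul]; exact mul_ne_zero hr hr', ?_⟩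
    rw [ev2_add, ev2_mul, ev2_mul, ev2_C, ev2_C, ← h, ← h', ← aeval_def, ← aeval_def, map_mul,
      map_add]
    ring
  | monomial n c =>
    obtain ⟨r, s, h⟩ := (mem_adjoin_simple_iff k (c : Ω)).1 c.2
    by_cases hs : aeval z s = 0
    · refine ⟨0, 1, by simp, ?_⟩
      have : c = 0 := Subtype.ext (by rw [h, hs, div_zero]; rfl)
      simp [this, ev2]
    · refine ⟨monomial n r, s, hs, ?_⟩
      simp only [AlgHom.toRingHom_eq_coe, RingHom.coe_coe, aeval_monomial, ev2, eval₂_monomial,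
        coe_eval₂RingHom, ← aeval_def]
      change (c : Ω) * _ * _ = _
      rw [h]
      field_simp

theorem eq_zero_of_powInd {z θ : Ω} (hz : Transcendental k z) {n : ℕ} (h : PowInd k {z} θ n)
    {P : k[X][X]} (hd : P.degree < n) (h0 : ev2 (algebraMap k Ω) P z θ = 0) : P = 0 := by
  have hm : ∀ r : k[X], aeval z r ∈ adjoin k {z} := fun r =>
    (mem_adjoin_simple_iff k _).2 ⟨r, 1, by simp⟩
  have h1 := Fintype.linearIndependent_iff.1 h (fun i => ⟨_, hm (P.coeff i)⟩) (by
    rw [← h0, ev2, eval₂_eq_sum, sum_fin _ (by simp) hd |>.symm]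
    rfl)
  ext1 i
  by_cases hi : i < n
  · exact transcendental_iff_injective.1 hz
      ((congrArg Subtype.val (h1 ⟨i, hi⟩)).trans (map_zero _).symm)
  · exact coeff_eq_zero_of_degree_lt (hd.trans_le (by exact_mod_cast not_lt.1 hi))

variable [CharZero k] [IsAlgClosed Ω]

/-- A primitive element and its equation. -/
theorem prim {z : Ω} (hz : Transcendental k z) (hS : Algebra.IsAlgebraic (adjoin k {z}) Ω)
    {S : Set Ω} (hfin : S.Finite) (hzS : z ∈ S) :
    ∃ (θ : Ω) (f : k[X][X]) (γ : Fin f.natDegree → Ω ≃ₐ[k] Ω), In k z θ ∧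
      S ⊆ adjoin k {θ, z} ∧ IsAvg (Fix k {z}) (Fix k S) γ ∧ f.Monic ∧
      ev2 (algebraMap k Ω) f z θ = 0 ∧
      f.map (eval₂RingHom (algebraMap k Ω) z) = ∏ j, (X - C (γ j θ)) ∧
      ∃ A B : k[X][X], ∃ r : k[X], r ≠ 0 ∧ A * f + B * derivative f = C r := by
  classical
  have : CharZero Ω := charZero_of_injective_algebraMap (algebraMap k Ω).injective
  have := hfin.to_subtype
  have : FiniteDimensional (adjoin k {z}) (adjoin (adjoin k {z}) S) :=
    finiteDimensional_adjoin fun x _ => (hS.isAlgebraic x).isIntegral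
  obtain ⟨α, hα⟩ := Field.exists_primitive_element (adjoin k {z}) (adjoin (adjoin k {z}) S)
  have hα' := congrArg (IntermediateField.lift) hα
  rw [lift_adjoin_simple, lift_top] at hα'
  obtain ⟨y, hy0, hy⟩ := (isAlgebraic_adjoin_iff.1 (hS.isAlgebraic (α : Ω))).exists_integral_multiple
  have hy0' : (y : Ω) ≠ 0 := fun h => hy0 (Subtype.ext h)
  have hyz : (y : Ω) ∈ adjoin k {z} := algebra_adjoin_le_adjoin k {z} y.2
  set θ : Ω := y • (α : Ω) with hθ
  have hθ' : θ = (y : Ω) * α := rfl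
  have hθS : θ ∈ adjoin k S := by
    refine mul_mem (adjoin.mono _ _ _ (Set.singleton_subset_iff.2 hzS) hyz) ?_
    have := α.2
    rwa [← mem_restrictScalars k, adjoin_adjoin_left,
      Set.union_eq_right.2 (Set.singleton_subset_iff.2 hzS)] at this
  have hSθ : S ⊆ adjoin k {θ, z} := by
    intro x hx
    have h1 : x ∈ adjoin (adjoin k {z}) S := subset_adjoin _ _ hx
    rw [← hα', ← mem_restrictScalars k, adjoin_adjoin_left] at h1
    refine adjoin_le_iff.2 ?_ h1
    rintro w (rfl | rfl)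
    · exact subset_adjoin _ _ (by simp)
    · have h2 : (α : Ω) = θ / y := by rw [hθ']; field_simp
      rw [h2]
      exact div_mem (subset_adjoin k {θ, z} (by simp)) (adjoin.mono _ _ _ (by simp) hyz)
  have hFix : Fix k S = Fix k {θ, z} := le_antisymm
    (Fix_le_of_subset_adjoin (by
      rintro w (rfl | rfl)
      exacts [hθS, subset_adjoin _ _ hzS])) (Fix_le_of_subset_adjoin hSθ)
  obtain ⟨γ, hγ⟩ := exists_avg _ _ (relIndex_ne_zero_of_finite hS hfin)
  have hn : PowInd k {z} θ ((Fix k S).relIndex (Fix k {z})) := (powInd_iff hS _ _).2 (hFix ▸ le_rfl)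
  generalize (Fix k S).relIndex (Fix k {z}) = n at γ hγ hn
  let χ : Polynomial Ω := ∏ j, (X - C (γ j θ))
  have hm : χ.Monic := monic_prod_of_monic _ _ fun _ _ => monic_X_sub_C _
  have hfix : ∀ g ∈ Fix k {z}, ∀ i, g (χ.coeff i) = χ.coeff i := fun g hg i => by
    have := hγ.prod_eq (fun g => X - C (g θ))
      (fun g s hs => by simp [fix_of_mem_adjoin hs hθS]) hg
    conv_rhs => rw [show χ = _ from this.symm]
    rw [show g (χ.coeff i) = (χ.map g.toRingEquiv.toRingHom).coeff i by simp]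
    simp [χ, Polynomial.map_prod]
  have hint : ∀ i, In k z (χ.coeff i) := by
    let B := (integralClosure (Algebra.adjoin k {z}) Ω).toSubring
    have h1 : χ ∈ lifts B.subtype :=
      Subring.prod_mem (liftsRing B.subtype) fun i _ => (liftsRing B.subtype).sub_mem
        (X_mem_lifts _) (C_mem_lifts B.subtype ⟨_, In.gal hy (hγ.1 i)⟩)
    intro i
    obtain ⟨w, hw⟩ := (lifts_iff_coeff_lifts _).1 h1 i
    exact hw ▸ w.2
  obtain ⟨f, hf, hdeg, hfm⟩ := lifts_and_natDegree_eq_and_monic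
    ((lifts_iff_coeff_lifts (f := eval₂RingHom (algebraMap k Ω) z) χ).2 fun i =>
      mem_range_of_In hz (mem_adjoin_of_fixed hS fun g hg => hfix g hg i) (hint i)) hm
  rw [natDegree_prod_of_monic _ _ fun _ _ => monic_X_sub_C _] at hdeg
  simp only [natDegree_X_sub_C, sum_const, card_univ, Fintype.card_fin, smul_eq_mul,
    mul_one] at hdeg
  subst hdeg
  obtain ⟨i, hi, -⟩ := hγ.2 1 (Subgroup.one_mem _)
  have hix : γ i θ = θ := fix_of_mem_adjoin (S := S) (by simpa using hi) hθS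
  have hroot : ev2 (algebraMap k Ω) f z θ = 0 := by
    rw [ev2_eq_eval, hf, eval_prod]
    exact prod_eq_zero (mem_univ i) (by simp [hix])
  refine ⟨θ, f, γ, hy, hSθ, hγ, hfm, hroot, hf, ?_⟩
  have hsep : χ.Separable := separable_prod_X_sub_C_iff.2 fun j j' h => hγ.inj (by
    rw [hFix]
    refine mem_Fix.2 ?_
    rintro w (rfl | rfl)
    · simp [← show γ j θ = γ j' θ from h]
    · exact mem_Fix.1 ((Fix k {w}).mul_mem ((Fix k {w}).inv_mem (hγ.1 j)) (hγ.1 j')) w rfl)
  have hd : ev2 (algebraMap k Ω) (derivative f) z θ ≠ 0 := by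
    rw [ev2_eq_eval, ← derivative_map, hf]
    have := hsep.aeval_derivative_ne_zero (x := θ) (by
      rw [coe_aeval_eq_eval, ← hf, ← ev2_eq_eval, hroot])
    rwa [coe_aeval_eq_eval] at this
  have hmem : ev2 (algebraMap k Ω) (derivative f) z θ ∈ adjoin k {θ, z} := by
    let L := adjoin k {θ, z}
    have := ev2_map L.subtype (algebraMap k L) (derivative f)
      ⟨z, subset_adjoin k {θ, z} (by simp)⟩ ⟨θ, subset_adjoin k {θ, z} (by simp)⟩
    exact this ▸ Subtype.prop _
  obtain ⟨B, r, hr, hB⟩ := rep (hS.isAlgebraic θ) (inv_mem hmem)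
  have h1 : (B * derivative f - C r) %ₘ f = 0 := by
    refine eq_zero_of_powInd hz hn ((degree_modByMonic_lt _ hfm).trans_le degree_le_natDegree) ?_
    rw [modByMonic_eq_sub_mul_div, ev2_sub, ev2_mul, hroot, ev2_sub, ev2_mul, ← hB, ev2_C,
      ← aeval_def]
    field_simp
    ring
  obtain ⟨A, hA⟩ := (modByMonic_eq_zero_iff_dvd hfm).1 h1
  exact ⟨-A, B, r, by rintro rfl; simp at hr, by linear_combination hA⟩

/-- Equality in all steps of a tower of radicals. -/
theorem tower {v : ℕ → Ω} {r : ℕ → ℕ} {n : ℕ} (hr : ∀ j, 0 < r j)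
    (hS : Algebra.IsAlgebraic (adjoin k {v n}) Ω)
    (hv : ∀ j < n, v j ^ r j ∈ adjoin k {v (j + 1)})
    (hind : LinearIndependent (adjoin k {v n}) fun l : Idx r n => bas l v) :
    (∀ j < n, PowInd k (v '' Set.Icc (j + 1) n) (v j) (r j)) ∧
      (Fix k (v '' Set.Icc 0 n)).relIndex (Fix k {v n}) ≤ lam r n := by
  have hins : ∀ j < n, v '' Set.Icc j n = insert (v j) (v '' Set.Icc (j + 1) n) := fun j hj => by
    rw [← Set.image_insert_eq, Set.insert_Icc_add_one_left_eq_Icc hj.le]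
  let a : ℕ → ℕ := fun j => (Fix k (v '' Set.Icc j n)).relIndex (Fix k (v '' Set.Icc (j + 1) n))
  have ha : ∀ j < n, a j ≠ 0 ∧ a j ≤ r j := fun j hj => by
    simp only [a, hins j hj]
    exact relIndex_root (hr j) (adj_of_mem (Set.mem_image_of_mem v ⟨le_rfl, hj⟩) (hv j hj))
  have hprod : ∀ j ≤ n, (Fix k (v '' Set.Icc 0 n)).relIndex (Fix k (v '' Set.Icc j n)) =
      ∏ i ∈ range j, a i := by
    intro j
    induction j with
    | zero => simp
    | succ j ih =>
      intro hj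
      rw [prod_range_succ, ← ih (by omega), Subgroup.relIndex_mul_relIndex _ _ _
        (Fix_anti (Set.image_mono (Set.Icc_subset_Icc_left j.zero_le)))
        (Fix_anti (Set.image_mono (Set.Icc_subset_Icc_left j.le_succ)))]
  have h1 := hprod n le_rfl
  rw [Set.Icc_self, Set.image_singleton] at h1
  have h2 := card_le_relIndex hS (S' := v '' Set.Icc 0 n)
    (relIndex_ne_zero_of_finite hS ((Set.finite_Icc _ _).image _)) (fun l : Idx r n => bas l v)
    (fun l => prod_mem fun (i : Fin n) _ => pow_mem (subset_adjoin k ({v n} ∪ v '' Set.Icc 0 n)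
      (Or.inr (Set.mem_image_of_mem v ⟨Nat.zero_le _, i.2.le⟩))) _) hind
  rw [card_Idx, h1, lam] at h2
  refine ⟨fun j hj => (powInd_iff (alg_of_mem ?_ hS) _ _).2 ?_, ?_⟩
  · exact Set.mem_image_of_mem v ⟨hj, le_rfl⟩
  · rw [← hins j hj]
    by_contra hlt
    exact absurd h2 (not_le.2 (prod_lt_prod (fun i hi => Nat.pos_of_ne_zero (ha i (mem_range.1 hi)).1)
      (fun i hi => (ha i (mem_range.1 hi)).2) ⟨j, mem_range.2 hj, not_le.1 hlt⟩))
  · rw [h1, lam]
    exact prod_le_prod' fun i hi => (ha i (mem_range.1 hi)).2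

/-- Linear disjointness from a tower of full radicals. -/
theorem disj {v : ℕ → Ω} {S : Set Ω} {p n : ℕ} (hp : 0 < p) (h0 : v 0 ∈ S)
    (hS : Algebra.IsAlgebraic (adjoin k {v 0}) Ω)
    (hv : ∀ j, v (j + 1) ^ p ∈ adjoin k {v j})
    (hP : ∀ j, PowInd k (S ∪ v '' Set.Iic j) (v (j + 1)) p)
    (hn : n ≤ (Fix k S).relIndex (Fix k {v 0})) (m : ℕ) :
    n ≤ (Fix k (S ∪ v '' Set.Iic m)).relIndex (Fix k (v '' Set.Iic m)) := by
  induction m with
  | zero =>
    have : Set.Iic 0 = {0} := by ext; simp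
    rwa [this, Set.image_singleton, Set.union_eq_left.2 (Set.singleton_subset_iff.2 h0)]
  | succ m ih =>
    have hins : v '' Set.Iic (m + 1) = insert (v (m + 1)) (v '' Set.Iic m) := by
      rw [← Set.image_insert_eq]; congr 1; ext; simp; omega
    have hm : v (m + 1) ^ p ∈ adjoin k (v '' Set.Iic m) :=
      adj_of_mem (Set.mem_image_of_mem v (Set.mem_Iic.2 le_rfl)) (hv m)
    have h1 := (relIndex_root hp hm).2
    have h2 := (powInd_iff (alg_of_mem (Set.mem_union_left _ h0) hS) _ _).1 (hP m)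
    rw [← Set.union_insert, ← hins] at h2
    rw [← hins] at h1
    have h3 := Subgroup.relIndex_mul_relIndex (Fix k (S ∪ v '' Set.Iic (m + 1)))
      (Fix k (S ∪ v '' Set.Iic m)) (Fix k (v '' Set.Iic m))
      (Fix_anti (Set.union_subset_union_right _ (Set.image_mono (Set.Iic_subset_Iic.2 m.le_succ))))
      (Fix_anti Set.subset_union_right)
    have h4 := Subgroup.relIndex_mul_relIndex (Fix k (S ∪ v '' Set.Iic (m + 1)))
      (Fix k (v '' Set.Iic (m + 1))) (Fix k (v '' Set.Iic m)) (Fix_anti Set.subset_union_right)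
      (Fix_anti (Set.image_mono (Set.Iic_subset_Iic.2 m.le_succ)))
    refine Nat.le_of_mul_le_mul_right (c := p) ?_ hp
    calc n * p ≤ _ := by rw [mul_comm]; exact Nat.mul_le_mul h2 ih
      _ = _ := h3.trans h4.symm
      _ ≤ _ := Nat.mul_le_mul_left _ h1

end Pool.Agent.MP_09973c_nt.H69
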