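import Pool.Agent.MP_09973c_nt.H58.SpecT
import Pool.Agent.MP_09973c_nt.H69.S1A

/-!
Norms down to polynomial rings over the integers.
-/

set_option autoImplicit false

namespace Pool.Agent.MP_09973c_nt.H69

open Polynomial Finset IntermediateField Pool.Agent.MP_09973c_nt.H58 Pool.Agent.MP_09973c_nt.H31

/-- Cauchy estimate for polynomials. -/
theorem cauchy (f : ℂ[X]) {ρ M : ℝ} (hρ : 0 < ρ) (h : ∀ z : ℂ, ‖z‖ = ρ → ‖f.eval z‖ ≤ M) (i : ℕ) :
    ‖f.coeff i‖ * ρ ^ i ≤ M := by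
  have h1 : ∀ n, iteratedDeriv n (fun z => f.eval z) = fun z => (derivative^[n] f).eval z := by
    intro n
    induction n with
    | zero => simp
    | succ n ih =>
      rw [iteratedDeriv_succ, ih, Function.iterate_succ_apply']
      funext z
      exact Polynomial.deriv _
  have h2 := Complex.norm_iteratedDeriv_le_of_forall_mem_sphere_norm_le (c := 0) i hρ
    f.differentiable.diffContOnCl (fun z hz => h z (by simpa using hz))
  rw [h1, le_div_iff₀ (by positivity)] at h2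
  simp only [← coeff_zero_eq_eval_zero, coeff_iterate_derivative, zero_add, Nat.descFactorial_self,
    nsmul_eq_mul, norm_mul, Complex.norm_natCast, mul_assoc] at h2
  exact le_of_mul_le_mul_left h2 (by positivity)

theorem ev2_comp {A A' B : Type} [CommRing A] [CommRing A'] [CommRing B] (φ : A' →+* B)
    (χ : A →+* A') (f : A[X][X]) (z θ : B) :
    ev2 φ (f.map (mapRingHom χ)) z θ = ev2 (φ.comp χ) f z θ := by
  unfold ev2
  rw [eval₂_map]
  congr 1
  ext <;> simp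

variable {Ω : Type} [Field Ω]

theorem mem_adjoin_pair {k : Type} [CommRing k] [Algebra k Ω] (u v x : Ω) :
    x ∈ Algebra.adjoin k {u, v} ↔ ∃ R : k[X][X], ev2 (algebraMap k Ω) R u v = x := by
  constructor
  · intro h
    induction h using Algebra.adjoin_induction with
    | mem x hx =>
      rcases hx with rfl | rfl
      · exact ⟨C X, by simp [ev2]⟩
      · exact ⟨X, by simp [ev2]⟩
    | algebraMap c => exact ⟨C (C c), by simp [ev2]⟩
    | add x y _ _ hx hy =>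
      obtain ⟨R, rfl⟩ := hx
      obtain ⟨R', rfl⟩ := hy
      exact ⟨R + R', ev2_add ..⟩
    | mul x y _ _ hx hy =>
      obtain ⟨R, rfl⟩ := hx
      obtain ⟨R', rfl⟩ := hy
      exact ⟨R * R', ev2_mul ..⟩
  · rintro ⟨R, rfl⟩
    have := ev2_map (Algebra.adjoin k {u, v}).val.toRingHom (algebraMap k _) R
      ⟨u, Algebra.subset_adjoin (by simp)⟩ ⟨v, Algebra.subset_adjoin (by simp)⟩
    exact this ▸ Subtype.prop _

theorem exists_inv {k A : Type} [CommRing k] [Algebra k Ω] [CommRing A] (j : A →+* Ω)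
    (hj : Function.Injective j) (B : Subalgebra k Ω) (h : ∀ x, x ∈ B ↔ ∃ a, j a = x) :
    ∃ e : B →+* A, ∀ x : B, j (e x) = x := by
  let E : A ≃+* B := RingEquiv.ofBijective (j.codRestrict B fun a => (h _).2 ⟨a, rfl⟩)
    ⟨fun a b hab => hj (congrArg Subtype.val hab), fun x =>
      ((h x).1 x.2).imp fun _ ha => Subtype.ext ha⟩
  exact ⟨E.symm, fun x => congrArg Subtype.val (E.apply_symm_apply x)⟩

variable [CharZero Ω]

theorem exists_ext {A : Type} [CommRing A] {S₀ : Set Ω} (j : A →+* Ω) (hj : Function.Injective j)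
    (h : ∀ x, x ∈ Algebra.adjoin ℚ S₀ ↔ ∃ a, j a = x) (θ : A →+* ℂ) :
    ∃ ψ : IntO S₀ →+* ℂ, ∀ (a : A) (x : IntO S₀), j a = x → ψ x = θ a := by
  obtain ⟨e, he⟩ := exists_inv j hj _ h
  obtain ⟨Φ, hΦ⟩ := ext_hom (B := integralClosure (Algebra.adjoin ℚ S₀) Ω) (θ.comp e)
    (fun x hx => by
      have h0 := congrArg Subtype.val ((RingHom.mem_ker).1 hx)
      have : x = 0 := Subtype.ext h0
      simp [this])
  refine ⟨Φ, fun a x hx => ?_⟩
  have h1 := hΦ ⟨j a, (h _).2 ⟨a, rfl⟩⟩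
  rw [RingHom.comp_apply, hj (he ⟨j a, (h _).2 ⟨a, rfl⟩⟩)] at h1
  exact (congrArg Φ (Subtype.ext hx.symm)).trans h1

theorem mem_range_int {A : Type} [CommRing A] [IsDomain A] [IsIntegrallyClosed A] {S₀ : Set Ω}
    (j : A →+* Ω) (hj : Function.Injective j)
    (h : ∀ x, x ∈ Algebra.adjoin ℤ S₀ ↔ ∃ a, j a = x) {x : Ω} (hx : x ∈ adjoin ℚ S₀)
    (hi : IsIntegral (Algebra.adjoin ℤ S₀) x) : ∃ a, j a = x := by
  obtain ⟨e, he⟩ := exists_inv j hj _ h
  let l : FractionRing A →+* Ω := IsFractionRing.lift hj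
  obtain ⟨y, rfl⟩ : x ∈ l.fieldRange := by
    have : adjoin ℚ S₀ ≤ l.fieldRange.toIntermediateField fun r => SubfieldClass.ratCast_mem _ r :=
      adjoin_le_iff.2 fun s hs => by
        obtain ⟨a, rfl⟩ := (h s).1 (Algebra.subset_adjoin hs)
        exact ⟨algebraMap A _ a, IsFractionRing.lift_algebraMap ..⟩
    exact this hx
  let _ := j.toAlgebra
  let _ := l.toAlgebra
  have : IsScalarTower A (FractionRing A) Ω :=
    IsScalarTower.of_algebraMap_eq fun a => (IsFractionRing.lift_algebraMap ..).symm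
  have h1 : IsIntegral A (l y) := hi.map_of_comp_eq e (RingHom.id Ω) (RingHom.ext he)
  obtain ⟨a, rfl⟩ := IsIntegrallyClosed.isIntegral_iff.1
    ((isIntegral_algebraMap_iff l.injective).1 h1)
  exact ⟨a, (IsFractionRing.lift_algebraMap ..).symm⟩

theorem integral_gal {k : Type} [CommRing k] [Algebra k Ω] {S₀ : Set Ω}
    (hk : ∀ x ∈ Algebra.adjoin k S₀, x ∈ adjoin ℚ S₀) {g : Ω ≃ₐ[ℚ] Ω} (hg : g ∈ Fix ℚ S₀) {x : Ω}
    (h : IsIntegral (Algebra.adjoin k S₀) x) : IsIntegral (Algebra.adjoin k S₀) (g x) :=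
  IsIntegral.map_of_comp_eq (RingHom.id _) (g : Ω →+* Ω)
    (RingHom.ext fun y => (fix_of_mem_adjoin hg (hk _ y.2)).symm) h

theorem core [IsAlgClosed Ω] {A : Type} [CommRing A] [IsDomain A] [IsIntegrallyClosed A]
    {S₀ : Set Ω} (j : A →+* IntO S₀) (hj : Function.Injective j)
    (h : ∀ x, x ∈ Algebra.adjoin ℤ S₀ ↔ ∃ a, j a = x)
    (hS : Algebra.IsAlgebraic (adjoin ℚ S₀) Ω) {Φ : IntO S₀} (h0 : Φ ≠ 0)
    (hI : IsIntegral (Algebra.adjoin ℤ S₀) (Φ : Ω)) {S : Subgroup (Ω ≃ₐ[ℚ] Ω)} {n : ℕ}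
    (hS0 : S.relIndex (Fix ℚ S₀) ≠ 0) (hn : S.relIndex (Fix ℚ S₀) ≤ n) (hfix : ∀ g ∈ S, g Φ = Φ) :
    ∃ R : A, R ≠ 0 ∧ (∀ ψ : IntO S₀ →+* ℂ, ψ Φ = 0 → ψ (j R) = 0) ∧
      ∀ (M : ℝ) (ψ : IntO S₀ →+* ℂ), 1 ≤ M → (∀ ψ' : IntO S₀ →+* ℂ,
        (∀ x : IntO S₀, (x : Ω) ∈ S₀ → ψ' x = ψ x) → ‖ψ' Φ‖ ≤ M) → ‖ψ (j R)‖ ≤ M ^ n := by
  obtain ⟨γ, hγ⟩ := exists_avg _ _ hS0
  have hZ : ∀ x ∈ Algebra.adjoin ℤ S₀, x ∈ adjoin ℚ S₀ := fun x hx =>
    Algebra.adjoin_le (S := subalgebraOfSubring (adjoin ℚ S₀).toSubring) (subset_adjoin ℚ S₀) hx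
  obtain ⟨R, hR⟩ := mem_range_int ((IntO S₀).subtype.comp j) (Subtype.val_injective.comp hj) h
    (hγ.prod_mem hS hfix) (IsIntegral.prod _ fun i _ => integral_gal hZ (hγ.1 i) hI)
  let Γ := fun i => ((γ i : Ω →+* Ω).comp (IntO S₀).subtype).codRestrict (IntO S₀)
    fun x => integral_gal (algebra_adjoin_le_adjoin ℚ S₀) (hγ.1 i) x.2
  have hR' : j R = ∏ i, Γ i Φ := Subtype.ext (hR.trans 
    (map_prod (IntO S₀).subtype (fun i => Γ i Φ) univ).symm)
  refine ⟨R, ?_, fun ψ hψ => ?_, fun M ψ hM hψ => ?_⟩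
  · rintro rfl
    rw [map_zero] at hR
    obtain ⟨i, -, hi⟩ := prod_eq_zero_iff.1 hR.symm
    exact h0 (Subtype.ext (by simpa using hi))
  · obtain ⟨i, hi, -⟩ := hγ.2 1 (Subgroup.one_mem _)
    have : Γ i Φ = Φ := Subtype.ext (hfix _ (by simpa using hi))
    rw [hR', map_prod]
    exact prod_eq_zero (mem_univ i) (by rw [this, hψ])
  · rw [hR', map_prod, norm_prod]
    refine (prod_le_prod (g := fun _ => M) (fun _ _ => norm_nonneg _) fun i _ =>
      hψ (ψ.comp (Γ i)) fun x hx => congrArg ψ (Subtype.ext (mem_Fix.1 (hγ.1 i) _ hx))).trans ?_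
    rw [prod_const, card_univ, Fintype.card_fin]
    exact pow_le_pow_right₀ hM hn

theorem elim1 : Elim1Stmt := by
  intro Ω _ _ _ u u' Φ hu htr hS h0 hI S n H hS0 hn hfix hH hb
  have hq := transcendental_iff_injective.1 htr
  let j : ℤ[X] →+* IntO {u} := eval₂RingHom (Int.castRingHom _) u'
  have hj : ∀ {B : Type} [CommRing B] (ψ : IntO {u} →+* B) R, ψ (j R) = aeval (ψ u') R :=
    fun ψ R => (hom_eval₂ ..).trans (by rw [aeval_def]; congr 1; exact RingHom.ext_int _ _)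
  have hj' : ∀ R, (j R : Ω) = aeval u R := fun R =>
    (hj (IntO {u}).subtype R).trans (congrArg (aeval · R) hu)
  obtain ⟨R, hR0, hR1, hR2⟩ := core j (fun R R' h => map_injective (algebraMap ℤ ℚ)
    (algebraMap ℤ ℚ).injective_int (hq (by
      rw [aeval_map_algebraMap, aeval_map_algebraMap, ← hj', ← hj', h])))
    (fun x => by simp only [hj', Algebra.adjoin_singleton_eq_range_aeval]; rfl) hS h0 hI hS0 hn hfix
  refine ⟨R, hR0, fun i => ?_, fun ψ hψ => hj ψ R ▸ hR1 ψ hψ⟩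
  have := cauchy (R.map (algebraMap ℤ ℂ)) one_pos (M := H ^ n) (fun z hz => by
    obtain ⟨ψ, hψ⟩ := exists_ext (S₀ := {u}) (aeval u : ℚ[X] →ₐ[ℚ] Ω).toRingHom hq
      (fun x => by rw [Algebra.adjoin_singleton_eq_range_aeval]; rfl)
      (aeval z : ℚ[X] →ₐ[ℚ] ℂ).toRingHom
    have h1 : ψ u' = z := (hψ X u' (by simp [hu])).trans (by simp)
    rw [eval_map_algebraMap, ← h1, ← hj]
    exact hR2 H ψ hH fun ψ' hψ' => hb ψ' (by rw [hψ' u' hu, h1, hz])) i
  simpa using this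

theorem elim2 : Elim2Stmt := by
  intro Ω _ _ _ u v u' v' Φ hu hv htr hS h0 hI S n w H hS0 hn hfix hH hb
  let jq : ℚ[X][X] →+* Ω := eval₂RingHom (eval₂RingHom (algebraMap ℚ Ω) u) v
  have hq : Function.Injective jq := (injective_iff_map_eq_zero _).2 htr
  let j : ℤ[X][X] →+* IntO {u, v} := eval₂RingHom (eval₂RingHom (Int.castRingHom _) u') v'
  have hj : ∀ {B : Type} [CommRing B] (ψ : IntO {u, v} →+* B) R,
      ψ (j R) = ev2 (Int.castRingHom B) R (ψ u') (ψ v') :=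
    fun ψ R => (ev2_map ..).trans (by congr 1; exact RingHom.ext_int _ _)
  have hj' : ∀ R, (j R : Ω) = ev2 (algebraMap ℤ Ω) R u v :=
    fun R => (hj (IntO {u, v}).subtype R).trans (congrArg₂ (ev2 _ R) hu hv)
  obtain ⟨R, hR0, hR1, hR2⟩ := core j ((injective_iff_map_eq_zero _).2 fun R h =>
    map_injective (mapRingHom (algebraMap ℤ ℚ)) (map_injective _ (algebraMap ℤ ℚ).injective_int)
      ((htr _ (by
        rw [ev2_comp, RingHom.ext_int ((algebraMap ℚ Ω).comp _) (algebraMap ℤ Ω), ← hj', h]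
        rfl)).trans (Polynomial.map_zero _).symm))
    (fun x => by simp only [hj', mem_adjoin_pair]) hS h0 hI hS0 hn hfix
  have key : ∀ ρ : ℝ, 1 ≤ ρ → ∀ i l, |((R.coeff i).coeff l : ℝ)| * ρ ^ (l + i) ≤
      H ^ n * ρ ^ (w * n) := by
    intro ρ hρ i l
    have hρ0 : 0 < ρ := by linarith
    have := cauchy ((R.coeff i).map (Int.castRingHom ℂ)) hρ0 (M := (H * ρ ^ w) ^ n / ρ ^ i)
      (fun z hz => by
        have := cauchy (R.map (eval₂RingHom (Int.castRingHom ℂ) z)) hρ0 (M := (H * ρ ^ w) ^ n)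
          (fun z' hz' => by
            obtain ⟨ψ, hψ⟩ := exists_ext jq hq (mem_adjoin_pair u v)
              (eval₂RingHom (eval₂RingHom (algebraMap ℚ ℂ) z) z')
            have h1 : ψ u' = z := (hψ (C X) u' (by simp [jq, hu])).trans (by simp)
            have h2 : ψ v' = z' := (hψ X v' (by simp [jq, hv])).trans (by simp)
            rw [← ev2_eq_eval, ← h1, ← h2, ← hj]
            exact hR2 _ ψ (one_le_mul_of_one_le_of_one_le hH (one_le_pow₀ hρ)) fun ψ' hψ' =>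
              hb ρ ψ' hρ (by rw [hψ' u' (Or.inl hu), h1, hz]) (by rw [hψ' v' (Or.inr hv), h2, hz'])) i
        rwa [coeff_map, coe_eval₂RingHom, ← eval_map, ← le_div_iff₀ (by positivity)] at this) l
    rw [le_div_iff₀ (by positivity), mul_pow, ← pow_mul, mul_assoc, ← pow_add] at this
    simpa using this
  have key2 : ∀ i l, w * n < l + i → (R.coeff i).coeff l = 0 := by
    intro i l hl
    by_contra hne
    have h1 : (1 : ℝ) ≤ |((R.coeff i).coeff l : ℝ)| := by exact_mod_cast Int.one_le_abs hne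
    have h2 : (1 : ℝ) ≤ H ^ n + 1 := by linarith [pow_nonneg (zero_le_one.trans hH) n]
    have h3 := key _ h2 i l
    have h4 := pow_le_pow_right₀ h2 (show w * n + 1 ≤ l + i from hl)
    have h5 : 0 < (H ^ n + 1) ^ (w * n) := by positivity
    rw [pow_succ] at h4
    have h6 := (le_mul_of_one_le_left (by positivity) h1).trans h3
    nlinarith
  exact ⟨R, hR0, natDegree_le_iff_coeff_eq_zero.2 fun i hi => Polynomial.ext fun l =>
    key2 i l (by omega), fun i => natDegree_le_iff_coeff_eq_zero.2 fun l hl => key2 i l (by omega),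
    fun i l => by simpa using key 1 le_rfl i l, fun ψ hψ => hj ψ R ▸ hR1 ψ hψ⟩

end Pool.Agent.MP_09973c_nt.H69
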