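import Pool.Agent.MP_09973c_nt.H69.S1C

/-!
The curve case.
-/

set_option autoImplicit false

namespace Pool.Agent.MP_09973c_nt.H69

open Polynomial Finset IntermediateField Filter Classical
open Pool.Agent.MP_09973c_nt.H58 Pool.Agent.MP_09973c_nt.H31

section Germ

variable {Ω : Type} [Field Ω] [Algebra Qb Ω] {U : Ultrafilter ℕ}
  {ev : Ω →+* Germ (U : Filter ℕ) Qb} {x y : Ω} {xs ys : ℕ → Qb}

/-- The sequence `xs` represents `x`. -/
def Rp (ev : Ω →+* Germ (U : Filter ℕ) Qb) (x : Ω) (xs : ℕ → Qb) : Prop :=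
  ev x = Germ.coeRingHom (U : Filter ℕ) xs

omit [Algebra Qb Ω]

theorem Rp.eq (hx : Rp ev x xs) (hy : Rp ev y ys) :
    x = y ↔ ∀ᶠ ν in (U : Filter ℕ), xs ν = ys ν := by
  rw [← ev.injective.eq_iff, hx, hy]
  exact Germ.coe_eq

theorem Rp.zero : Rp ev 0 fun _ => 0 := (map_zero ev).trans (map_zero _).symm

theorem Rp.ne (hx : Rp ev x xs) (h : x ≠ 0) : ∀ᶠ ν in (U : Filter ℕ), xs ν ≠ 0 :=
  Ultrafilter.eventually_not.2 fun h1 => h ((hx.eq Rp.zero).2 h1)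

theorem Rp.add (hx : Rp ev x xs) (hy : Rp ev y ys) : Rp ev (x + y) fun ν => xs ν + ys ν := by
  rw [Rp, map_add, hx, hy, ← map_add]; rfl

theorem Rp.mul (hx : Rp ev x xs) (hy : Rp ev y ys) : Rp ev (x * y) fun ν => xs ν * ys ν := by
  rw [Rp, map_mul, hx, hy, ← map_mul]; rfl

theorem Rp.pow (hx : Rp ev x xs) (n : ℕ) : Rp ev (x ^ n) fun ν => xs ν ^ n := by
  rw [Rp, map_pow, hx, ← map_pow]; rfl

theorem Rp.sum {ι : Type} [Fintype ι] {x : ι → Ω} {xs : ι → ℕ → Qb} (h : ∀ i, Rp ev (x i) (xs i)) :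
    Rp ev (∑ i, x i) fun ν => ∑ i, xs i ν := by
  rw [Rp, map_sum, sum_congr rfl fun i _ => h i, ← map_sum]
  exact congrArg _ (funext fun ν => Finset.sum_apply ..)

theorem Rp.mono {p q j m T : ℕ} (k : PK p q j m T) {u t : ℕ → Ω} {us ts : ℕ → ℕ → Qb}
    (hu : ∀ i, Rp ev (u i) fun ν => us ν i) (ht : ∀ i, Rp ev (t i) fun ν => ts ν i) :
    Rp ev (mono k u t) fun ν => mono k (us ν) (ts ν) := by
  rw [Rp, mono_map, funext hu, funext ht, ← mono_map]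
  exact congrArg _ (funext fun ν => mono_map (Pi.evalRingHom (fun _ : ℕ => Qb) ν) k
    (fun i ν => us ν i) fun i ν => ts ν i)

theorem Rp.ev2 [Algebra Qb Ω] (hc : ∀ c : Qb, Rp ev (algebraMap Qb Ω c) fun _ => c)
    (hx : Rp ev x xs) (hy : Rp ev y ys) (f : Qb[X][X]) :
    Rp ev (ev2 (algebraMap Qb Ω) f x y) fun ν => ev2 (RingHom.id Qb) f (xs ν) (ys ν) := by
  rw [Rp, ev2_map, hx, hy, show ev.comp (algebraMap Qb Ω) =
    (Germ.coeRingHom (U : Filter ℕ)).comp (Pi.constRingHom ℕ Qb) from RingHom.ext hc, ← ev2_map]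
  exact congrArg _ (funext fun ν => ev2_map (Pi.evalRingHom (fun _ : ℕ => Qb) ν) _ f _ _)

end Germ

theorem indep_all {Ω : Type} [Field Ω] [Algebra Qb Ω] {κ : Type} [Fintype κ] {n : ℕ} {S : Set Ω}
    {θ : Ω} (hθ : PowInd Qb S θ n) {b : κ → Ω} (hb : ∀ k, b k ∈ adjoin Qb S)
    (h : ∀ c : κ → Qb, ∑ k, algebraMap Qb Ω (c k) * b k = 0 → c = 0) (c : κ × Fin n → Qb)
    (hc : ∑ k, algebraMap Qb Ω (c k) * (b k.1 * θ ^ (k.2 : ℕ)) = 0) : c = 0 := by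
  have h1 := Fintype.linearIndependent_iff.1 hθ
    (fun j => ⟨∑ k, algebraMap Qb Ω (c (k, j)) * b k,
      sum_mem fun k _ => mul_mem (_root_.algebraMap_mem _ _) (hb k)⟩) (by
      rw [← hc, Fintype.sum_prod_type_right]
      refine sum_congr rfl fun j _ => ?_
      change (∑ k, _) * _ = _
      rw [sum_mul]
      exact sum_congr rfl fun k _ => mul_assoc ..)
  funext ⟨k, j⟩
  exact congrFun (h _ (congrArg Subtype.val (h1 j))) k

theorem count_prod {κ κ' : Type} [Fintype κ] [Fintype κ'] (P : κ × κ' → Prop) {K : ℕ}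
    (h : ∀ k, Fintype.card κ' ≤ K * (univ.filter fun j => P (k, j)).card) :
    Fintype.card (κ × κ') ≤ K * (univ.filter P).card := by
  rw [card_filter, Fintype.sum_prod_type, mul_sum, Fintype.card_prod, ← smul_eq_mul, ← card_univ,
    ← sum_const]
  exact sum_le_sum fun k _ => card_filter (fun j => P (k, j)) univ ▸ h k

theorem sz1 (hSP : SPStmt) (hD : DetAStmt) (hCo : CompStmt) (hSel : SelGStmt) (hSz : SizeStmt)
    (hEA : EAStmt) (hAC : ACStmt) : Sz1Stmt := by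
  intro p q a b hp hpq h ha _
  have hp0 : 0 < p := by omega
  have hq0 : 0 < q := by omega
  obtain ⟨δ, hδ, m₁, hEA⟩ := hEA p q a hp hpq h (by exact_mod_cast ha)
  obtain ⟨A₀, hAC⟩ := hAC p q a hp hpq h (by exact_mod_cast ha)
  obtain ⟨j₁, hj₁⟩ := eventually_atTop.1 (((tendsto_pow_atTop_atTop_of_one_lt
    (show (1 : ℝ) < q / p by rw [one_lt_div (by positivity)]; exact_mod_cast hpq)).const_mul_atTop
    hδ).eventually_ge_atTop A₀)
  refine ⟨m₁ + j₁ + 1, fun U D D' o o' C₁ hM Ω _ _ _ ev uu tt tt' J₀ hJ₀ hc hu ht ht' h0 hS0 hP1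
    hP2 => ?_⟩
  change ∀ c : Qb, Rp ev _ _ at hc
  change ∀ i, Rp ev _ _ at hu ht ht'
  obtain ⟨ξ, hξ, hξU⟩ := (U.eventually_exists_mem_iff (finite_roots_one hp0)
    (P := fun x ν => (D ν).ξ = x)).1 (Eventually.of_forall fun ν => ⟨_, (D ν).hξ, rfl⟩)
  have hξ1 : ξ ≠ 1 := by
    obtain ⟨ν, rfl⟩ := hξU.exists
    exact (D ν).hξ1
  have hC : Ch p q a ξ uu tt := by
    refine ⟨fun n i _ => ?_, ?_, fun n i _ => ?_⟩
    · exact ((((hu _).pow p).add (hc a)).eq ((hu i).pow q)).2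
        (Eventually.of_forall fun ν => (D ν).hu i)
    · exact ((ht 0).eq ((hc ξ).mul (hu 0))).2 (hξU.mono fun ν hν => hν ▸ (D ν).ht0)
    · exact ((((ht _).pow p).add (hc a)).eq ((ht i).pow q)).2
        ((hM.long (i + 1)).mono fun ν hν => (D ν).ht i hν.1)
  have hz := hC.tr hp0 hq0 h0 J₀
  have hS : Algebra.IsAlgebraic (adjoin Qb {uu J₀}) Ω :=
    isAlgebraic_change (S := {uu 0})
      (fun x hx => Set.mem_singleton_iff.1 hx ▸ (hC.in_u hp0 hq0 J₀ 0).alg) hS0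
  obtain ⟨da, hda, Ca, hCa, haS⟩ := exists_Sz a
  have hna : ‖(a : ℂ)‖ ≤ Ca := haS.norm_le
  have huS : ∀ ν i, Sz ((D ν).u i) da (2 + Ca) := fun ν i =>
    ((D ν).u_Sz hp0 hpq haS i).mono dvd_rfl (by linarith)
  set K := lam (tr p q J₀) (J₀ + J₀) * p ^ 2 with hK
  have hK0 : 0 < K := Nat.mul_pos (prod_pos fun i _ => tr_pos hp0 hq0 _ i) (by positivity)
  obtain ⟨J₁, hJ₁⟩ := hAC (((q : ℝ) / p) ^ J₀ * (2 * Real.log (2 + Ca))) (2 * K * (C₁ + 6) + 1)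
  set j := J₀ + 2 + J₁ with hj
  set S := uu '' Set.Iic J₀ ∪ tt '' Set.Iic (j + o + o') ∪ tt' '' Set.Iic (j + o + o') with hSd
  have hzS : uu J₀ ∈ S := Or.inl (Or.inl ⟨J₀, Set.mem_Iic.2 le_rfl, rfl⟩)
  obtain ⟨θ, f, γ, hθ, hSθ, hγ, hfm, hf0, hf, Af, Bf, rf, hrf, hBz⟩ := prim hz hS
    ((((Set.finite_Iic _).image _).union ((Set.finite_Iic _).image _)).union
      ((Set.finite_Iic _).image _)) hzS
  obtain ⟨ψ₁, r₁, hr₁, e₁⟩ := rep hθ.alg
    (hSθ (Or.inl (Or.inr ⟨j + o, Set.mem_Iic.2 (by omega), rfl⟩)))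
  obtain ⟨ψ₂, r₂, hr₂, e₂⟩ := rep hθ.alg (hSθ (Or.inr ⟨j + o', Set.mem_Iic.2 (by omega), rfl⟩))
  let ψ : Fin 3 → Qb[X][X] := ![C (r₁ * r₂), ψ₁ * C r₂, ψ₂ * C r₁]
  have hψ0 : ev2 (algebraMap Qb Ω) (ψ 0) (uu J₀) θ ≠ 0 := by
    change ev2 _ (C _) _ _ ≠ 0
    rw [ev2_C, ← aeval_def, map_mul]
    exact mul_ne_zero hr₁ hr₂
  have hψ1 : ev2 (algebraMap Qb Ω) (ψ 1) (uu J₀) θ =
      tt (j + o) * ev2 (algebraMap Qb Ω) (ψ 0) (uu J₀) θ := by
    change ev2 _ (ψ₁ * C r₂) _ _ = _ * ev2 _ (C _) _ _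
    rw [ev2_mul, ev2_C, ev2_C, ← e₁, ← aeval_def, ← aeval_def, map_mul, mul_assoc]
  have hψ2 : ev2 (algebraMap Qb Ω) (ψ 2) (uu J₀) θ =
      tt' (j + o') * ev2 (algebraMap Qb Ω) (ψ 0) (uu J₀) θ := by
    change ev2 _ (ψ₂ * C r₁) _ _ = _ * ev2 _ (C _) _ _
    rw [ev2_mul, ev2_C, ev2_C, ← e₂, ← aeval_def, ← aeval_def, map_mul, mul_assoc, mul_comm (aeval _ r₁)]
  let ι₀ := mapRingHom (algebraMap Qb ℂ)
  obtain ⟨Bad, w, E, C₂, hC₂, hCo⟩ := hCo (f.map ι₀) (fun i => (ψ i).map ι₀) (2 + Ca) (hfm.map _)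
    ⟨Af.map ι₀, Bf.map ι₀, ι₀ rf, fun h0 => hrf (map_injective _ (algebraMap Qb ℂ).injective
      (h0.trans (Polynomial.map_zero _).symm)), by
      rw [derivative_map, ← Polynomial.map_mul, ← Polynomial.map_mul, ← Polynomial.map_add, hBz,
        map_C]⟩
  set n := (f.map ι₀).natDegree with hnd
  have hn : n = f.natDegree := hfm.natDegree_map _
  obtain ⟨γ, hγ, hf⟩ : ∃ γ : Fin n → Ω ≃ₐ[Qb] Ω,
      IsAvg (Fix Qb {uu J₀}) (Fix Qb S) γ ∧
      f.map (eval₂RingHom (algebraMap Qb Ω) (uu J₀)) = ∏ j, (X - C (γ j θ)) := by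
    rw [hn]; exact ⟨γ, hγ, hf⟩
  have hn0 := hγ.card_pos
  have hn1 := hγ.card
  rw [Fintype.card_fin] at hn0 hn1
  obtain ⟨θs, hθs⟩ : ∃ θs, Rp ev θ θs := by
    obtain ⟨x, hx⟩ := Quotient.exists_rep (ev θ)
    exact ⟨x, hx.symm⟩
  obtain ⟨dθ, hdθ, Hθ, hHθ, hθS⟩ := Sz_ev2 hfm hda (show 1 ≤ 2 + Ca by linarith)
  have hfU := ((Rp.ev2 hc (hu J₀) hθs f).eq Rp.zero).1 hf0
  obtain ⟨Gf, hGf, hGf'⟩ := exists_fix f
  choose Gψ hGψ hGψ' using fun i => exists_fix (ψ i)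
  let G : Subgroup Gal := Fix ℚ {a} ⊓ Gf ⊓ ⨅ i, Gψ i
  have hG : G.index ≠ 0 := Subgroup.index_inf_ne_zero (Subgroup.index_inf_ne_zero
    (index_Fix_ne_zero (Set.finite_singleton a)) hGf) (Subgroup.index_iInf_ne_zero hGψ)
  have hr0 : ι₀ (r₁ * r₂) ≠ 0 := fun h0 => hψ0 (by
    have : r₁ * r₂ = 0 := map_injective _ (algebraMap Qb ℂ).injective
      (h0.trans (Polynomial.map_zero _).symm)
    simp [ψ, this, ev2])
  obtain ⟨C₃, hSP⟩ := hSP p q (2 + Ca) hp hpq h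
  obtain ⟨Y₀, hY₀⟩ := exists_nat_ge (2 * (4 * Real.log (2 * n) + 4 + 2 * Real.log C₂ + G.index *
    ((q + 1) * (Real.log da + Real.log (2 + Ca)) + n * (Real.log dθ + Real.log Hθ) + 1 +
      Real.log n)))
  obtain ⟨m, -, -, hSP⟩ := hSP 0 (Bad ∪ (ι₀ (r₁ * r₂)).roots.toFinset).card (2 * w + 1) K
    (Y₀ + 4 * E + 1) (by omega) hK0 (by omega)
  obtain ⟨T, T', J, hT, -, hSP⟩ := hSP m le_rfl
  obtain ⟨Sy, hOk, hSe, -, hKN, hYJ, hMul, η, hη, hη1, hηJ, hηR⟩ :=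
    hSP a 1 0 _ (by linarith) (one_pow p) le_rfl le_rfl
  have hN0 : 0 < Fintype.card (PK p q 0 m T) :=
    Fintype.card_pos_iff.2 ⟨(⟨0, hT⟩, fun i => ⟨0, tr_pos hp0 hq0 _ _⟩)⟩
  have hlN : 0 ≤ Real.log (Fintype.card (PK p q 0 m T)) := Real.log_natCast_nonneg _
  have hJ0 : 0 < J := by
    have h1 := Real.log_nonneg Sy.hB
    have h2 : (0 : ℝ) < (Y₀ + 4 * E + 1 : ℕ) := by positivity
    exact_mod_cast lt_of_lt_of_le (mul_pos h2 (by positivity)) hYJ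
  have hz01 : ∀ x, Sy.Ok x → x.2 0 = x.1 0 := fun x hx => ((hOk x).1 hx).2.2.1.trans (one_mul _)
  have hzn : ∀ x, Sy.Ok x → ‖x.2 0‖ ≤ 2 + Ca := fun x hx =>
    hz01 x hx ▸ ((hOk x).1 hx).2.1 0 m.zero_le
  choose φ hφ using fun r => exists_Sp hz ((Sy.R r).2 0)
  obtain ⟨Ty, hTO, hTe, hTR, hTB, hTM⟩ := hCo _ _ _ Sy (fun x => x.2 0) η
    (fun r l => φ r (γ l θ)) hη hη1 hzn
    (fun r β hβ => hz01 _ (Sy.okR r) ▸ hηR r β (mem_union_left _ hβ))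
    (fun r => by
      rw [← (hφ r).roots (fun l => hθ.gal (hγ.1 l)) hf, Polynomial.map_map]
      congr 1
      ext <;> simp [ι₀])
  -- independence
  obtain ⟨e, he, hez⟩ := exists_emb hz hS
  have hsh : ∀ n, Bwd p q (algebraMap Qb Ω a) n fun i => uu (J₀ + i) :=
    fun n => (hC.hu _).shift le_rfl
  have htr : Transcendental ℂ (e (uu (J₀ + m))) := fun h1 => tt_transcendental (by
    have h2 := path_integral_back (r := fun _ => q) (s := fun _ => p) (α := fun _ => 1)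
      (β := fun _ => a) (n := m) (fun _ => hq0) (v := fun i => e (uu (J₀ + i)))
      (fun i hi => by simpa [he] using (congrArg e (hsh m i hi)).symm) h1.isIntegral
    exact hez ▸ h2.isAlgebraic)
  have hθP : PowInd Qb ((fun i => uu (J₀ + i)) '' Set.Iic m) θ n := by
    have hS' := alg_of_mem (S := (fun i => uu (J₀ + i)) '' Set.Iic m) ⟨0, m.zero_le, rfl⟩ hS
    refine (powInd_iff hS' _ _).2 ((disj (v := fun i => uu (J₀ + i)) hp0 hzS hS
      (fun i => mem_up rfl (hsh _ i i.lt_succ_self)) (fun i => (hP1 (j + o + o') (J₀ + i)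
        (by omega)).mono (subset_trans ?_ (subset_adjoin _ _))) hn1.le m).trans
      (Subgroup.relIndex_le_of_le_left (Fix_le_of_subset_adjoin (Set.union_subset
        (hSθ.trans (adjoin.mono _ _ _ (Set.insert_subset_insert
          (Set.singleton_subset_iff.2 ⟨0, m.zero_le, rfl⟩))))
        ((Set.subset_insert _ _).trans (subset_adjoin _ _))))
        (relIndex_ne_zero_of_finite hS' (((Set.finite_Iic _).image _).insert _))))
    rintro x (((⟨l, hl, rfl⟩ | hx) | hx) | ⟨l, hl, rfl⟩)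
    · exact Or.inl (Or.inl ⟨l, le_trans hl (Nat.le_add_right _ _), rfl⟩)
    · exact Or.inl (Or.inr hx)
    · exact Or.inr hx
    · exact Or.inl (Or.inl ⟨_, Nat.add_le_add_left hl _, rfl⟩)
  let Ev : ℕ → PK p q 0 m T × Fin n → Qb := fun ν k =>
    mono k.1 (fun i => (D ν).u (J₀ + i)) (fun _ => (D ν).u J₀) * θs ν ^ (k.2 : ℕ)
  have hEv : ∀ᶠ ν in (U : Filter ℕ), ∀ k, Sz (Ev ν k) (da ^ (T + q * m) * dθ ^ n)
      ((2 + Ca) ^ (T + q * m) * Hθ ^ n) := hfU.mono fun ν hν k =>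
    (Sz_mono (by linarith) (fun i => huS ν _) k.1).mul (((hθS _ _ (huS ν _) hν).pow _).mono
      (pow_dvd_pow _ k.2.2.le) (pow_le_pow_right₀ hHθ k.2.2.le))
  have hmem : ∀ i ≤ m, uu (J₀ + i) ∈ adjoin Qb ((fun i => uu (J₀ + i)) '' Set.Iic m) :=
    fun i hi => subset_adjoin Qb ((fun i => uu (J₀ + i)) '' Set.Iic m) ⟨i, hi, rfl⟩
  have hSel := hSel _ G _ _ U Ev hG (by positivity) hEv fun c hc0 =>
    (Rp.sum fun k => (hc (c k)).mul ((Rp.mono k.1 (us := fun ν i => (D ν).u (J₀ + i))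
      (ts := fun ν _ => (D ν).u J₀) (u := fun i => uu (J₀ + i)) (fun i => hu _) (fun _ => hu J₀)).mul
      (hθs.pow _))).ne fun h0 => hc0 (indep_all hθP (fun k => mul_mem
        (pow_mem (hmem m le_rfl) _) (prod_mem fun (i : Fin (m + 0)) _ => pow_mem (hmem i i.2.le) _))
        (indep_mono hp hpq h ha hξ hξ1 e he (t := fun _ => uu J₀) (hsh m) htr) c h0)
  have hU0 := (Rp.ev2 hc (hu J₀) hθs (ψ 0)).ne hψ0
  have hU1 := ((Rp.ev2 hc (hu J₀) hθs (ψ 1)).eq ((ht _).mul (Rp.ev2 hc (hu J₀) hθs (ψ 0)))).1 hψ1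
  have hU2 := ((Rp.ev2 hc (hu J₀) hθs (ψ 2)).eq ((ht' _).mul (Rp.ev2 hc (hu J₀) hθs (ψ 0)))).1 hψ2
  obtain ⟨ν, ⟨⟨⟨⟨⟨⟨g₀, hg₀, hdet⟩, hEv⟩, hfU⟩, hU0⟩, hU1⟩, hU2⟩, hsz⟩ :=
    ((((((hSel.and hEv).and hfU).and hU0).and hU1).and hU2).and (hM.size j)).exists
  have hl1 : 0 ≤ Real.log (2 + Ca) := Real.log_nonneg (by linarith)
  obtain ⟨g, hg, hEQ⟩ := hD _ _ _ ((Fin 3 → ℂ) × (Fin 3 → ℂ)) Ty G
    (fun g => ((fun i => (g ((D ν).u (J₀ + i)) : Qb), fun _ => (g ((D ν).u J₀) : Qb)),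
      (g (θs ν) : Qb))) (Ev ν) _ _ g₀ _ J hG
    (fun g hg => ⟨(hTO _).2 ⟨(hOk _).2 ⟨by
        have := (((D ν).bwd_u _).shift (i := J₀) (m := m) le_rfl).map
          ((algebraMap Qb ℂ).comp (g : Qb →+* Qb))
        rwa [RingHom.comp_apply, RingHom.coe_coe, mem_Fix.1 hg.1.1 a rfl] at this,
        fun i _ => (huS ν _).2 g, (one_mul _).symm, fun _ hk => absurd hk (by omega)⟩, by
        rw [← hGf' g hg.1.2, hfU, map_zero]; rfl⟩, fun k => by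
      rw [hTe, hSe]
      have := mono_map ((algebraMap Qb ℂ).comp (g : Qb →+* Qb)) k.1 (fun i => (D ν).u (J₀ + i))
        (fun _ => (D ν).u J₀)
      simp only [Ev, map_mul, map_pow, MulMemClass.coe_mul, SubmonoidClass.coe_pow]
      exact congrArg (· * _) this.symm⟩)
    (by positivity) (one_le_mul_of_one_le_of_one_le (one_le_pow₀ (by linarith)) (one_le_pow₀ hHθ))
    hEv hg₀ hdet hJ0 (fun t => hTM _ J hMul (by nlinarith) t.1 t.2) (by
      have := ineq (I := G.index) hN0 hn0 Sy.hB hC₂ hη hη1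
        (add_nonneg (Real.log_natCast_nonneg da) hl1)
        (mul_nonneg (Nat.cast_nonneg n) (add_nonneg (Real.log_natCast_nonneg dθ)
          (Real.log_nonneg hHθ))) hYJ hηJ (hY₀.trans (by push_cast; linarith [Nat.cast_nonneg (α := ℝ) E]))
        (E := E) (by omega)
      rw [Fintype.card_prod _ (Fin n), Fintype.card_fin, hTB, Nat.cast_mul (da ^ _), Nat.cast_pow,
        Nat.cast_pow, Real.log_mul (x := (da : ℝ) ^ _) (by positivity) (by positivity),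
        Real.log_mul (x := (2 + Ca) ^ _) (by positivity) (by positivity), Real.log_pow,
        Real.log_pow, Real.log_pow, Real.log_pow]
      refine le_of_eq_of_le ?_ this
      push_cast
      ring)
  have hx : ∀ l i, ev2 (RingHom.id ℂ) ((ψ i).map ι₀) ((g * g₀ l) ((D ν).u J₀) : Qb)
      ((g * g₀ l) (θs ν) : Qb) = ((g * g₀ l) (ev2 (RingHom.id Qb) (ψ i) ((D ν).u J₀) (θs ν)) : Qb) :=
    fun l i => (hGψ' i _ (Subgroup.mem_iInf.1 (G.mul_mem hg (hg₀ l)).2 i) _ _).symm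
  have hy0 : ∀ r y, ev2 (RingHom.id ℂ) ((ψ 0).map ι₀) ((Sy.R r).2 0) y =
      (ι₀ (r₁ * r₂)).eval ((Sy.R r).2 0) := fun r y => by
    change ev2 _ ((C _).map _) _ _ = _
    rw [map_C, ev2_C, eval₂_id]
  have hy1 : ∀ r, (ι₀ (r₁ * r₂)).eval ((Sy.R r).2 0) ≠ 0 := fun r h0 => by
    have := hηR r _ (mem_union_right _ (Multiset.mem_toFinset.2 ((mem_roots hr0).2 h0)))
    rw [hz01 _ (Sy.okR r), sub_self, norm_zero] at this
    linarith
  have : Nonempty (PK p q 0 m T × Fin n) :=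
    Fintype.card_pos_iff.1 (by rw [Fintype.card_prod _ (Fin n), Fintype.card_fin]; positivity)
  have hfin := hSz _ _ K
    (fun l i => ev2 (RingHom.id ℂ) ((ψ i).map ι₀) ((g * g₀ l) ((D ν).u J₀) : Qb)
      ((g * g₀ l) (θs ν) : Qb))
    (fun l i => ev2 (RingHom.id ℂ) ((ψ i).map ι₀) ((Ty.R l).1.2 0) (Ty.R l).2) C₁
    (2 * K * (C₁ + 6) + 1) hEQ (fun l => by rw [hx]; simpa using hU0)
    (fun l => by rw [hTR, hy0]; exact hy1 _)
    (fun l => by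
      have h1 : (((g * g₀ l) (ev2 (RingHom.id Qb) (ψ 0) ((D ν).u J₀) (θs ν)) : Qb) : ℂ) ≠ 0 := by
        simpa using hU0
      rw [hx, hx, hx, hU1, hU2, map_mul, map_mul, MulMemClass.coe_mul, MulMemClass.coe_mul,
        mul_div_cancel_right₀ _ h1, mul_div_cancel_right₀ _ h1]
      exact hsz _)
    (count_prod _ fun r => by
      refine (count hp hpq h ha hξ hξ1 hC (by omega) (J' := J₁ + o) (by omega) hz hS (hP2 _) hγ
        (C₀ := 2 + Ca) (by linarith) (fun x => ?_) (hJ₁ _ (by omega)) (hφ r) (hzn _ (Sy.okR r))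
        (fun g => lp (φ r (g (ev2 (algebraMap Qb Ω) (ψ 2) (uu J₀) θ)) /
          (ι₀ (r₁ * r₂)).eval ((Sy.R r).2 0))) fun g s hs => ?_).trans_eq ?_
      · obtain ⟨u, t, h1, h2, h3, h4, h5⟩ := hEA J₀ (by omega) ξ x J₀ (by exact_mod_cast hξ)
          (by exact_mod_cast hξ1)
        exact ⟨u, t, h1, h2, h3, h4, (hj₁ J₀ (by omega)).trans h5⟩
      · have h1 : s (uu J₀) = uu J₀ :=
          mem_Fix.1 hs _ (Or.inl (Or.inl ⟨J₀, Set.mem_Iic.2 le_rfl, rfl⟩))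
        have h2 : s (ev2 (algebraMap Qb Ω) (ψ 0) (uu J₀) θ) = ev2 (algebraMap Qb Ω) (ψ 0) (uu J₀) θ := by
          change s (ev2 _ (C _) _ _) = ev2 _ (C _) _ _
          rw [ev2_C, ← aeval_def, ← aeval_algHom_apply, h1]
        rw [AlgEquiv.mul_apply, hψ2, map_mul s, h2,
          mem_Fix.1 hs _ (Or.inr ⟨j + o', Set.mem_Iic.2 (by omega), rfl⟩)]
      · congr 2
        refine filter_congr fun l _ => ?_
        have h1 := (hφ r).gal (hγ.1 l)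
        have h2 := fun i => h1.ev2 hθ (ψ i)
        simp only [← ev2_id_map (algebraMap Qb ℂ)] at h2
        simp only [hTR]
        rw [← h2 1, ← h2 2, hy0, hψ1, h1.mul (hC.in_t hp0 hq0 _ _) (hθ.ev2 _), h2 0, hy0,
          mul_div_cancel_right₀ _ (hy1 r), ← add_assoc])
    (by
      have h1 : (Fintype.card (PK p q 0 m T') : ℝ) ≤ Fintype.card (PK p q 0 m T) := by
        exact_mod_cast Fintype.card_le_of_embedding Sy.lo
      have h2 := mul_nonneg (mul_nonneg (Nat.cast_nonneg (α := ℝ) K) (add_nonneg hlN zero_le_two))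
        (sub_nonneg.2 h1)
      rw [Fintype.card_prod _ (Fin n), Fintype.card_prod _ (Fin n), Nat.cast_mul (Fintype.card _),
        Nat.cast_mul (Fintype.card _), ← sub_mul, ← mul_assoc]
      exact mul_le_mul_of_nonneg_right (by linarith) (by positivity))
  linarith

end Pool.Agent.MP_09973c_nt.H69
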