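import Pool.Agent.MP_09973c_nt.H69.S1A

/-!
Independence of monomials, specializations and the count on a fibre.
-/

set_option autoImplicit false

namespace Pool.Agent.MP_09973c_nt.H69

open Polynomial Finset IntermediateField Pool.Agent.MP_09973c_nt.H58 Pool.Agent.MP_09973c_nt.H31
open scoped IntermediateField.algebraAdjoinAdjoin

/-- Leading coefficients along a path. -/
def pα {A : Type} [CommRing A] (ξ : A) (j i : ℕ) : A := if i + 1 = j then ξ else 1

/-- Constant coefficients along a path. -/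
def pβ {A : Type} [CommRing A] (c : A) (j i : ℕ) : A := if i < j then -c else c

theorem tr_eq (p q j : ℕ) : ∀ i, tr p q j i = if i < j then p else q := by
  induction j with
  | zero => intro i; simp [tr]
  | succ j ih => intro i; cases i <;> simp [tr, ih]

theorem tα_eq (ξ : ℂ) (j : ℕ) : tα ξ j = pα ξ j := by
  induction j with
  | zero => funext i; simp [tα, pα]
  | succ j ih => funext i; cases i <;> simp [tα, ih, pα, top, eq_comm]

theorem tβ_eq (c : ℂ) (j : ℕ) : tβ c j = pβ c j := by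
  induction j with
  | zero => funext i; simp [tβ, pβ]
  | succ j ih => funext i; cases i <;> simp [tβ, ih, pβ]

theorem map_pα {A B : Type} [CommRing A] [CommRing B] (h : A →+* B) (ξ : A) (j : ℕ) :
    pα (h ξ) j = fun i => h (pα ξ j i) := by
  funext i; unfold pα; split_ifs <;> simp

theorem map_pβ {A B : Type} [CommRing A] [CommRing B] (h : A →+* B) (c : A) (j : ℕ) :
    pβ (h c) j = fun i => h (pβ c j i) := by
  funext i; unfold pβ; split_ifs <;> simp

theorem path_pv {A : Type} [CommRing A] {p q j m : ℕ} {c ξ : A} {u t : ℕ → A}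
    (hu : Bwd p q c m u) (h0 : t 0 = ξ * u 0) (ht : Bwd p q c j t) :
    IsPath (tr p q j) (tr q p j) (pα (ξ ^ q) j) (pβ c j) (m + j) (pv j u t) := by
  intro i hi
  simp only [tr_eq, pα, pβ, pv]
  rcases lt_trichotomy (i + 1) j with h | h | h
  · rw [if_pos (by omega), if_pos (by omega), if_neg h.ne, if_pos h, if_pos (by omega),
      if_pos (by omega), ← ht _ (by omega), show j - (i + 1) + 1 = j - i by omega]
    ring
  · subst h
    have := ht 0 (by omega)
    simp only [Nat.lt_succ_self, if_true, lt_irrefl, if_false, Nat.sub_self, Nat.add_sub_cancel_left]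
    rw [← mul_pow, ← h0, ← this]
    ring
  · rw [if_neg (by omega), if_neg (by omega), if_neg h.ne', if_neg (by omega), if_neg (by omega),
      if_neg (by omega), ← hu _ (by omega), show i - j + 1 = i + 1 - j by omega, one_mul]

theorem pv_top {A : Type} (j m : ℕ) (u t : ℕ → A) : pv j u t (m + j) = u m := by simp [pv]

theorem pv_zero {A : Type} {j : ℕ} (hj : 0 < j) (u t : ℕ → A) : pv j u t 0 = t j := by
  simp [pv, hj]

variable {Ω : Type} [Field Ω] [Algebra Qb Ω]

theorem exists_emb {z : Ω} (hz : Transcendental Qb z)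
    (hS : Algebra.IsAlgebraic (adjoin Qb {z}) Ω) :
    ∃ e : Ω →+* FF, (∀ c : Qb, e (algebraMap Qb Ω c) = algebraMap ℂ FF c) ∧ e z = tt := by
  let E := algEquivOfTranscendental Qb z hz
  let j : Qb[X] →+* FF := eval₂RingHom ((algebraMap ℂ FF).comp (algebraMap Qb ℂ)) tt
  have hj : Function.Injective j := by
    have : j = (aeval tt : ℂ[X] →ₐ[ℂ] FF).toRingHom.comp (mapRingHom (algebraMap Qb ℂ)) := by
      ext <;> simp [j]
    rw [this]
    exact (transcendental_iff_injective.1 tt_transcendental).comp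
      (map_injective _ (algebraMap Qb ℂ).injective)
  let _ : Algebra (Algebra.adjoin Qb {z}) FF := (j.comp E.symm.toRingEquiv.toRingHom).toAlgebra
  have : FaithfulSMul (Algebra.adjoin Qb {z}) FF :=
    (faithfulSMul_iff_algebraMap_injective _ _).2 (hj.comp E.symm.injective)
  have := isAlgebraic_adjoin_iff_top.1 hS
  let e : Ω →ₐ[Algebra.adjoin Qb {z}] FF := IsAlgClosed.lift
  refine ⟨e, fun c => ?_, ?_⟩
  · refine (e.commutes (algebraMap Qb _ c)).trans ?_
    change j (E.symm (algebraMap Qb _ c)) = _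
    rw [AlgEquiv.commutes]
    simp [j]
  · refine (e.commutes ⟨z, Algebra.self_mem_adjoin_singleton Qb z⟩).trans ?_
    change j (E.symm _) = _
    rw [algEquivOfTranscendental_symm_gen]
    simp [j]

section Ind

variable {p q : ℕ} (hp : 2 ≤ p) (hpq : p < q) (h : p.Coprime q) {a ξ : Qb} (ha : a ≠ 0)
  (hξ : ξ ^ p = 1) (hξ1 : ξ ≠ 1) (e : Ω →+* FF)
  (he : ∀ c : Qb, e (algebraMap Qb Ω c) = algebraMap ℂ FF c)

include hp hpq h ha hξ hξ1 he in
theorem indep_path {N j : ℕ} {u t : ℕ → Ω} (hu : Bwd p q (algebraMap Qb Ω a) N u)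
    (h0 : t 0 = algebraMap Qb Ω ξ * u 0) (ht : Bwd p q (algebraMap Qb Ω a) j t)
    (htr : Transcendental ℂ (e (u N))) (c : Idx (tr p q j) (N + j) → Qb[X])
    (hc : ∑ l, aeval (u N) (c l) * bas l (pv j u t) = 0) : c = 0 := by
  have h1 := (path_pv hu h0 ht).map e
  rw [← map_pα, ← map_pβ, map_pow, he, he, ← map_pow, map_pα, map_pβ, ← tα_eq, ← tβ_eq] at h1
  have h2 := tail_uind hp hpq h (ξ := (ξ : ℂ) ^ q) (c := a)
    (by rw [← pow_mul, mul_comm, pow_mul]; exact_mod_cast (by rw [hξ, one_pow] : (ξ ^ p) ^ q = 1))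
    (fun h1 => hξ1 (eq_one_of_coprime h hξ (by exact_mod_cast h1))) (by exact_mod_cast ha) N j FF _
    h1 (by rwa [pv_top]) (fun l => (c l).map (algebraMap Qb ℂ)) (by
      rw [← map_zero e, ← hc, map_sum]
      refine sum_congr rfl fun l _ => ?_
      beta_reduce
      rw [map_mul, map_bas, pv_top, aeval_def, aeval_def, eval₂_map, hom_eval₂]
      congr 2
      exact RingHom.ext fun c => (he c).symm)
  funext l
  exact map_injective _ (algebraMap Qb ℂ).injective
    ((congrFun h2 l).trans (Polynomial.map_zero _).symm)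

include hp hpq h ha hξ hξ1 he in
theorem indep_mono {m T : ℕ} {u t : ℕ → Ω} (hu : Bwd p q (algebraMap Qb Ω a) m u)
    (htr : Transcendental ℂ (e (u m))) (c : PK p q 0 m T → Qb)
    (hc : ∑ k, algebraMap Qb Ω (c k) * mono k u t = 0) : c = 0 := by
  have h1 := indep_path hp hpq h ha hξ hξ1 e he (j := 0) (t := fun _ => algebraMap Qb Ω ξ * u 0)
    hu rfl (fun _ hk => absurd hk (by omega)) htr
    (fun l => ∑ i : Fin T, monomial i (c (i, l))) (by
      rw [← hc, Fintype.sum_prod_type_right]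
      refine sum_congr rfl fun l _ => ?_
      rw [map_sum, sum_mul]
      refine sum_congr rfl fun i _ => ?_
      rw [aeval_monomial, mul_assoc]
      rfl)
  funext ⟨i, l⟩
  have h2 := congrArg (coeff · i) (congrFun h1 l)
  simpa [finsetSum_coeff, coeff_monomial, Fin.val_inj] using h2

end Ind

theorem indep_field {z : Ω} {ι : Type} [Fintype ι] {b : ι → Ω}
    (h : ∀ c : ι → Qb[X], ∑ l, aeval z (c l) * b l = 0 → c = 0) :
    LinearIndependent (adjoin Qb {z}) b := by
  rw [← LinearIndependent.iff_fractionRing (Algebra.adjoin Qb {z})]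
  refine Fintype.linearIndependent_iff.2 fun c hc l => ?_
  choose P hP using fun l => (Algebra.adjoin_singleton_eq_range_aeval Qb z).le (c l).2
  have h1 := h P (hc ▸ sum_congr rfl fun l _ => congrArg (· * b l) (hP l))
  refine Subtype.ext ((hP l).symm.trans ?_)
  simp [h1]

theorem map_roots {A B B' B'' ι : Type} [CommRing A] [CommRing B] [CommRing B'] [CommRing B'']
    [Fintype ι] (i : B →+* B') (hi : Function.Injective i) (Φ : B →+* B'') (c : A →+* B) (z : B)
    (θ : ι → B) {f : A[X][X]} (hf : f.map (eval₂RingHom (i.comp c) (i z)) = ∏ j, (X - C (i (θ j)))) :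
    f.map (eval₂RingHom (Φ.comp c) (Φ z)) = ∏ j, (X - C (Φ (θ j))) := by
  have h4 : f.map (eval₂RingHom c z) = ∏ j, (X - C (θ j)) := by
    refine map_injective i hi ?_
    rw [Polynomial.map_map, Polynomial.map_prod]
    simp only [Polynomial.map_sub, map_X, map_C]
    refine Eq.trans ?_ hf
    congr 1
    ext <;> simp
  have h5 := congrArg (Polynomial.map Φ) h4
  rw [Polynomial.map_map, Polynomial.map_prod] at h5
  simp only [Polynomial.map_sub, map_X, map_C] at h5
  refine Eq.trans ?_ h5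
  congr 1
  ext <;> simp

/-- A specialization of the integral elements sending `z` to `z₀`. -/
def Sp (z : Ω) (z₀ : ℂ) (φ : Ω → ℂ) : Prop :=
  ∃ Φ : integralClosure (Algebra.adjoin Qb {z}) Ω →+* ℂ, (∀ x, Φ x = φ x) ∧
    (∀ c : Qb, φ (algebraMap Qb Ω c) = c) ∧ φ z = z₀

theorem exists_Sp {z : Ω} (hz : Transcendental Qb z) (z₀ : ℂ) : ∃ φ, Sp z z₀ φ := by
  classical
  let E := algEquivOfTranscendental Qb z hz
  obtain ⟨Φ, hΦ⟩ := ext_hom (B := integralClosure (Algebra.adjoin Qb {z}) Ω)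
    ((eval₂RingHom (algebraMap Qb ℂ) z₀).comp E.symm.toRingEquiv.toRingHom) (fun x hx => by
      have h0 := congrArg Subtype.val ((RingHom.mem_ker).1 hx)
      have : x = 0 := Subtype.ext h0
      simp [this])
  refine ⟨fun x => if h : In Qb z x then Φ ⟨x, h⟩ else 0, Φ, fun x => by simp only [dif_pos (show In Qb z x from x.2)],
    fun c => (dif_pos (In.const z c)).trans ((hΦ (algebraMap Qb _ c)).trans ?_),
    (dif_pos (In.self z)).trans ((hΦ ⟨z, Algebra.self_mem_adjoin_singleton Qb z⟩).trans ?_)⟩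
  · change eval₂ _ _ (E.symm (algebraMap Qb _ c)) = _
    rw [AlgEquiv.commutes]
    simp
  · change eval₂ _ _ (E.symm _) = _
    rw [algEquivOfTranscendental_symm_gen, eval₂_X]

namespace Sp

variable {z x y : Ω} {z₀ : ℂ} {φ : Ω → ℂ} (hφ : Sp z z₀ φ)
include hφ

theorem gal {g : Ω ≃ₐ[Qb] Ω} (hg : g ∈ Fix Qb {z}) : Sp z z₀ fun x => φ (g x) := by
  obtain ⟨Φ, h1, h2, h3⟩ := hφ
  let B := (integralClosure (Algebra.adjoin Qb {z}) Ω).toSubring
  exact ⟨Φ.comp (((g : Ω →+* Ω).comp B.subtype).codRestrict B fun x => In.gal x.2 hg),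
    fun x => h1 _, fun c => (congrArg φ (g.commutes c)).trans (h2 c),
    (congrArg φ (mem_Fix.1 hg z rfl)).trans h3⟩

theorem self : φ z = z₀ := hφ.choose_spec.2.2

theorem const (c : Qb) : φ (algebraMap Qb Ω c) = c := hφ.choose_spec.2.1 c

theorem mul (hx : In Qb z x) (hy : In Qb z y) : φ (x * y) = φ x * φ y := by
  obtain ⟨Φ, h1, -⟩ := hφ
  have := Φ.map_mul ⟨x, hx⟩ ⟨y, hy⟩
  rwa [h1, h1, h1] at this

theorem add (hx : In Qb z x) (hy : In Qb z y) : φ (x + y) = φ x + φ y := by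
  obtain ⟨Φ, h1, -⟩ := hφ
  have := Φ.map_add ⟨x, hx⟩ ⟨y, hy⟩
  rwa [h1, h1, h1] at this

theorem pow (hx : In Qb z x) (n : ℕ) : φ (x ^ n) = φ x ^ n := by
  obtain ⟨Φ, h1, -⟩ := hφ
  have := Φ.map_pow ⟨x, hx⟩ n
  rwa [h1, h1] at this

theorem ev2 (hx : In Qb z x) (f : Qb[X][X]) :
    φ (ev2 (algebraMap Qb Ω) f z x) = ev2 (algebraMap Qb ℂ) f z₀ (φ x) := by
  obtain ⟨Φ, h1, h2, h3⟩ := hφ
  let B := (integralClosure (Algebra.adjoin Qb {z}) Ω).toSubring
  let c : Qb →+* B := (algebraMap Qb Ω).codRestrict B fun c => In.const z c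
  have h4 := ev2_map B.subtype c f ⟨z, In.self z⟩ ⟨x, hx⟩
  have h5 := ev2_map Φ c f ⟨z, In.self z⟩ ⟨x, hx⟩
  rw [h1, h1, h1, h3, show Φ.comp c = algebraMap Qb ℂ from
    RingHom.ext fun c => (h1 _).trans (h2 c)] at h5
  exact h4 ▸ h5

theorem roots {ι : Type} [Fintype ι] {θ : ι → Ω} (hθ : ∀ j, In Qb z (θ j)) {f : Qb[X][X]}
    (hf : f.map (eval₂RingHom (algebraMap Qb Ω) z) = ∏ j, (X - C (θ j))) :
    f.map (eval₂RingHom (algebraMap Qb ℂ) z₀) = ∏ j, (X - C (φ (θ j))) := by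
  obtain ⟨Φ, h1, h2, h3⟩ := hφ
  let B := (integralClosure (Algebra.adjoin Qb {z}) Ω).toSubring
  let c : Qb →+* B := (algebraMap Qb Ω).codRestrict B fun c => In.const z c
  have h4 := map_roots B.subtype Subtype.val_injective Φ c ⟨z, In.self z⟩
    (fun j => ⟨θ j, hθ j⟩) hf
  rw [show Φ.comp c = algebraMap Qb ℂ from RingHom.ext fun c => (h1 _).trans (h2 c),
    (h1 _).trans h3] at h4
  exact h4.trans (prod_congr rfl fun j _ => by rw [h1])

theorem step (hx : In Qb z x) (hy : In Qb z y) {r s : ℕ} {α β : Qb}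
    (h : x ^ r = algebraMap Qb Ω α * y ^ s + algebraMap Qb Ω β) :
    φ x ^ r = α * φ y ^ s + β := by
  rw [← hφ.pow hx, h, hφ.add ((In.const z α).mul (hy.pow s)) (In.const z β),
    hφ.mul (In.const z α) (hy.pow s), hφ.pow hy, hφ.const, hφ.const]

theorem bwd {p q n : ℕ} {a : Qb} {u : ℕ → Ω} (hu : Bwd p q (algebraMap Qb Ω a) n u)
    (h : ∀ i, In Qb z (u i)) : Bwd p q (a : ℂ) n fun i => φ (u i) := fun i hi => by
  rw [← hφ.pow (h i), ← hu i hi, hφ.add ((h _).pow p) (In.const z a), hφ.pow (h _), hφ.const]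

variable [IsAlgClosed Ω]

theorem rot {S : Set Ω} (hS : Algebra.IsAlgebraic (adjoin Qb S) Ω) (hx : In Qb z x) {r : ℕ}
    (hr : 0 < r) (hm : x ^ r ∈ adjoin Qb S) (hP : PowInd Qb S x r) {w : ℂ}
    (hw : w ^ r = φ x ^ r) : ∃ s ∈ Fix Qb S, φ (s x) = w := by
  obtain ⟨ω, hω, rfl⟩ := exists_mul_of_pow_eq hr hw
  have h1 : ω ∈ algebraicClosure ℚ ℂ :=
    mem_algebraicClosure_iff'.2 (IsIntegral.of_pow hr (hω ▸ isIntegral_one))
  obtain ⟨s, hs, h2⟩ := exists_rot hS hr hm hP (y := algebraMap Qb Ω ⟨ω, h1⟩ * x) (by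
    rw [mul_pow, ← map_pow, show (⟨ω, h1⟩ : Qb) ^ r = 1 from Subtype.ext hω, map_one, one_mul])
  exact ⟨s, hs, by rw [h2, hφ.mul (In.const z _) hx, hφ.const]⟩

theorem realize (hS : Algebra.IsAlgebraic (adjoin Qb {z}) Ω) {v : ℕ → Ω} {w : ℕ → ℂ}
    {r s : ℕ → ℕ} {α β : ℕ → Qb} {n : ℕ} (hr : ∀ i, 0 < r i) (hz : v n = z) (hw0 : w n = z₀)
    (hv : IsPath r s (fun i => algebraMap Qb Ω (α i)) (fun i => algebraMap Qb Ω (β i)) n v)
    (hw : IsPath r s (fun i => (α i : ℂ)) (fun i => (β i : ℂ)) n w) (hI : ∀ i, In Qb z (v i))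
    (hP : ∀ j < n, PowInd Qb (v '' Set.Icc (j + 1) n) (v j) (r j)) :
    ∃ g ∈ Fix Qb {z}, φ (g (v 0)) = w 0 := by
  have key : ∀ j, j ≤ n → ∃ g ∈ Fix Qb {z}, φ (g (v j)) = w j := by
    intro j hj
    induction hj using Nat.decreasingInduction with
    | self => exact ⟨1, one_mem _, by rw [hz, hw0]; exact hφ.self⟩
    | of_succ j hj ih =>
      obtain ⟨g, hg, h1⟩ := ih
      have hzm : z ∈ v '' Set.Icc (j + 1) n := hz ▸ Set.mem_image_of_mem v ⟨hj, le_rfl⟩
      obtain ⟨t, ht, h2⟩ := (hφ.gal hg).rot (alg_of_mem hzm hS) (hI j) (hr j) (by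
        rw [hv j hj]
        exact add_mem (mul_mem (_root_.algebraMap_mem _ _) (pow_mem (subset_adjoin Qb _
          (Set.mem_image_of_mem v (Set.mem_Icc.2 ⟨le_rfl, hj⟩))) _)) (_root_.algebraMap_mem _ _))
        (hP j hj) (w := w j) (by
        rw [(hφ.gal hg).step (hI j) (hI (j + 1)) (hv j hj), h1, hw j hj])
      exact ⟨g * t, mul_mem hg (Fix_anti (Set.singleton_subset_iff.2 hzm) ht), h2⟩
  exact key 0 n.zero_le

end Sp

end Pool.Agent.MP_09973c_nt.H69
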