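import Pool.Agent.MP_09973c_nt.H69.S1B

/-!
The count on a fibre and arithmetic lemmas.
-/

set_option autoImplicit false

namespace Pool.Agent.MP_09973c_nt.H69

open Polynomial Finset IntermediateField Filter Classical
open Pool.Agent.MP_09973c_nt.H58 Pool.Agent.MP_09973c_nt.H31

section Count

variable {Ω : Type} [Field Ω] [Algebra Qb Ω]

/-- A chain with a tail in a function field. -/
structure Ch (p q : ℕ) (a ξ : Qb) (uu tt : ℕ → Ω) : Prop where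
  hu : ∀ n, Bwd p q (algebraMap Qb Ω a) n uu
  h0 : tt 0 = algebraMap Qb Ω ξ * uu 0
  ht : ∀ n, Bwd p q (algebraMap Qb Ω a) n tt

theorem in_up {p q : ℕ} (hp : 0 < p) {a : Qb} {z x y : Ω} (hy : In Qb z y)
    (h : x ^ p + algebraMap Qb Ω a = y ^ q) : In Qb z x :=
  IsIntegral.of_pow hp (by rw [eq_sub_of_add_eq h]; exact (hy.pow q).sub (In.const z a))

theorem mem_up {p q : ℕ} {a : Qb} {S : Set Ω} {x y : Ω} (hy : y ∈ S)
    (h : x ^ p + algebraMap Qb Ω a = y ^ q) : x ^ p ∈ adjoin Qb S := by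
  rw [eq_sub_of_add_eq h]
  exact sub_mem (pow_mem (subset_adjoin Qb S hy) q) (_root_.algebraMap_mem _ _)

variable {p q : ℕ} {a ξ : Qb} {uu tt : ℕ → Ω}

theorem Ch.in_u (hC : Ch p q a ξ uu tt) (hp : 0 < p) (hq : 0 < q) (J i : ℕ) :
    In Qb (uu J) (uu i) := by
  rcases le_total i J with h | h
  · induction h using Nat.decreasingInduction with
    | self => exact In.self _
    | of_succ i _ ih =>
      exact IsIntegral.of_pow hq (hC.hu _ i i.lt_succ_self ▸ (ih.pow p).add (In.const _ a))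
  · induction h with
    | refl => exact In.self _
    | step _ ih => exact in_up hp ih (hC.hu _ _ (Nat.lt_succ_self _))

theorem Ch.in_t (hC : Ch p q a ξ uu tt) (hp : 0 < p) (hq : 0 < q) (J i : ℕ) :
    In Qb (uu J) (tt i) := by
  induction i with
  | zero => exact hC.h0 ▸ (In.const _ ξ).mul (hC.in_u hp hq J 0)
  | succ i ih => exact in_up hp ih (hC.ht _ _ (Nat.lt_succ_self _))

theorem Ch.tr (hC : Ch p q a ξ uu tt) (hp : 0 < p) (hq : 0 < q) (h : Transcendental Qb (uu 0))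
    (J : ℕ) : Transcendental Qb (uu J) := fun h1 => h (by
  have : Algebra.IsIntegral Qb (Algebra.adjoin Qb {uu J}) :=
    Algebra.IsIntegral.adjoin fun x hx => hx ▸ h1.isIntegral
  exact (isIntegral_trans _ (hC.in_u hp hq J 0)).isAlgebraic)

theorem count [IsAlgClosed Ω] (hp : 2 ≤ p) (hpq : p < q) (h : p.Coprime q) (ha : a ≠ 0)
    (hξ : ξ ^ p = 1) (hξ1 : ξ ≠ 1) (hC : Ch p q a ξ uu tt) {J₀ J J' : ℕ} (hJ₀ : 0 < J₀)
    (hJ : J₀ + 2 + J' ≤ J) {T' : Set Ω} (hz : Transcendental Qb (uu J₀))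
    (hS : Algebra.IsAlgebraic (adjoin Qb {uu J₀}) Ω)
    (hP : ∀ i, J₀ ≤ i → PowInd Qb (uu '' Set.Iic J₀ ∪ tt '' Set.Iic i ∪ T') (tt (i + 1)) p)
    {ι : Type} [Fintype ι] {γ : ι → Ω ≃ₐ[Qb] Ω}
    (hγ : IsAvg (Fix Qb {uu J₀}) (Fix Qb (uu '' Set.Iic J₀ ∪ tt '' Set.Iic J ∪ T')) γ)
    {A₀ A C₀ : ℝ} (hC₀ : 1 + ‖(a : ℂ)‖ ≤ C₀)
    (hEA : ∀ x : ℂ, ∃ u t : ℕ → ℂ, Bwd p q (a : ℂ) J₀ u ∧ u J₀ = x ∧ t 0 = ξ * u 0 ∧
      Bwd p q (a : ℂ) J₀ t ∧ A₀ ≤ lp (t J₀))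
    (hAC : ∀ (w : ℂ) (s : ℝ), A₀ ≤ lp w → lp w ≤ ((q : ℝ) / p) ^ J₀ * (2 * Real.log C₀) →
      ∃ w₁ w₂ : ℂ, w₁ ^ p + a = w ^ q ∧ w₂ ^ p + a = w₁ ^ q ∧
        ∀ z : ℕ → ℂ, z 0 = w₂ → Bwd p q (a : ℂ) J' z → A ≤ |lp (z J') - s|)
    {z₀ : ℂ} {φ : Ω → ℂ} (hφ : Sp (uu J₀) z₀ φ) (hz₀ : ‖z₀‖ ≤ C₀) (σ : (Ω ≃ₐ[Qb] Ω) → ℝ)
    (hσ : ∀ g, ∀ s ∈ Fix Qb (uu '' Set.Iic J₀ ∪ tt '' Set.Iic J₀ ∪ T'), σ (g * s) = σ g) :
    Fintype.card ι ≤ lam (tr p q J₀) (J₀ + J₀) * p ^ 2 *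
      (univ.filter fun j => A ≤ |lp (φ (γ j (tt (J₀ + 2 + J')))) - σ (γ j)|).card := by
  have hp0 : 0 < p := by omega
  have hq0 : 0 < q := by omega
  have hu := hC.in_u hp0 hq0 J₀
  have ht := hC.in_t hp0 hq0 J₀
  let X : ℕ → Set Ω := fun i => uu '' Set.Iic J₀ ∪ tt '' Set.Iic i ∪ T'
  have hXm : ∀ {i j}, i ≤ j → Fix Qb (X j) ≤ Fix Qb (X i) := fun hij => Fix_anti
    (Set.union_subset_union_left _ (Set.union_subset_union_right _
      (Set.image_mono (Set.Iic_subset_Iic.2 hij))))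
  have hXz : ∀ i, uu J₀ ∈ X i := fun i => Or.inl (Or.inl ⟨J₀, Set.mem_Iic.2 le_rfl, rfl⟩)
  have hXt : ∀ {i j}, i ≤ j → tt i ∈ X j := fun hij => Or.inl (Or.inr ⟨_, hij, rfl⟩)
  have hXG : ∀ i, Fix Qb (X i) ≤ Fix Qb {uu J₀} := fun i =>
    Fix_anti (Set.singleton_subset_iff.2 (hXz i))
  have hXs : ∀ i, X (i + 1) = insert (tt (i + 1)) (X i) := fun i => by
    have : Set.Iic (i + 1) = insert (i + 1) (Set.Iic i) := by ext; simp; omega
    simp only [X, this, Set.image_insert_eq, Set.union_insert, Set.insert_union]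
  have hXp : ∀ i, tt (i + 1) ^ p ∈ adjoin Qb (X i) := fun i =>
    mem_up (hXt le_rfl) (hC.ht _ i i.lt_succ_self)
  -- the tower below `z`
  have hpath := path_pv (hC.hu J₀) hC.h0 (hC.ht J₀)
  rw [← map_pow, map_pα, map_pβ] at hpath
  have hr := tr_pos hp0 hq0 J₀
  obtain ⟨e, he, hez⟩ := exists_emb hz hS
  obtain ⟨hT1, hT2⟩ := tower (k := Qb) (v := pv J₀ uu tt) (n := J₀ + J₀) hr (by rwa [pv_top])
    (fun j hj => by
      rw [hpath j hj]
      exact add_mem (mul_mem (_root_.algebraMap_mem _ _)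
        (pow_mem (mem_adjoin_simple_self Qb _) _)) (_root_.algebraMap_mem _ _))
    (by
      rw [pv_top]
      exact indep_field (indep_path hp hpq h ha hξ hξ1 e he (hC.hu J₀) hC.h0 (hC.ht J₀)
        (hez ▸ tt_transcendental)))
  rw [pv_top] at hT2
  have h1 := hγ.lift (S' := Fix Qb {uu J₀}) (S₃ := Fix Qb (pv J₀ uu tt '' Set.Icc 0 (J₀ + J₀)))
    (Fix_anti (by
      rintro _ ⟨i, hi, rfl⟩
      unfold pv
      split_ifs
      · exact hXt (by omega)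
      · exact Or.inl (Or.inl ⟨_, by have := hi.2; simp; omega, rfl⟩)))
    (Fix_anti (Set.singleton_subset_iff.2 ⟨J₀ + J₀, by simp, pv_top ..⟩)) le_rfl hT2
    (fun _ => True) (fun g => A₀ ≤ lp (φ (g (tt J₀))))
    (fun g s hs hq => by
      rwa [AlgEquiv.mul_apply, mem_Fix.1 hs _ ⟨0, by simp, pv_zero hJ₀ ..⟩])
    (fun g hg _ => by
      obtain ⟨u, t, h1, h2, h3, h4, h5⟩ := hEA z₀
      have h6 := path_pv h1 h3 h4
      rw [show (ξ : ℂ) ^ q = algebraMap Qb ℂ (ξ ^ q) by simp,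
        show (a : ℂ) = algebraMap Qb ℂ a from rfl, map_pα, map_pβ] at h6
      obtain ⟨s, hs, h7⟩ := (hφ.gal hg).realize hS hr (pv_top ..) ((pv_top ..).trans h2) hpath h6
        (fun i => by unfold pv; split_ifs; exacts [ht _, hu _]) hT1
      rw [pv_zero hJ₀, pv_zero hJ₀] at h7
      exact ⟨s, hs, by rwa [AlgEquiv.mul_apply, h7]⟩)
  have h2 := hγ.lift (S' := Fix Qb (X J₀)) (S₃ := Fix Qb (X (J₀ + 2))) (n := p ^ 2)
    (hXm (by omega)) (hXm (by omega)) (hXG _) (by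
      rw [← Subgroup.relIndex_mul_relIndex _ (Fix Qb (X (J₀ + 1))) _ (hXm (by omega))
        (hXm (by omega)), sq]
      exact Nat.mul_le_mul (hXs _ ▸ (relIndex_root hp0 (hXp _)).2)
        (hXs _ ▸ (relIndex_root hp0 (hXp _)).2))
    (fun g => A₀ ≤ lp (φ (g (tt J₀))))
    (fun g => ∀ z : ℕ → ℂ, z 0 = φ (g (tt (J₀ + 2))) → Bwd p q (a : ℂ) J' z →
      A ≤ |lp (z J') - σ g|)
    (fun g s hs hq => by
      rwa [AlgEquiv.mul_apply, mem_Fix.1 hs _ (hXt le_rfl), hσ g s (hXm (by omega) hs)])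
    (fun g hg hA => by
      have hφ1 := hφ.gal hg
      have hn : ‖(a : ℂ)‖ ≤ C₀ - 1 := by linarith
      have hl : 0 ≤ Real.log C₀ := Real.log_nonneg (by linarith [norm_nonneg (a : ℂ)])
      have hθ : (0 : ℝ) < ((q : ℝ) / p) ^ J₀ := by positivity
      have e1 := esc_low hp0 hpq hn (hφ1.bwd (hC.hu J₀) hu) J₀ le_rfl
      have e2 := esc_up hp0 hpq hn (hφ1.bwd (hC.ht J₀) ht) J₀ le_rfl
      rw [add_sub_cancel] at e1 e2
      rw [hφ1.self] at e1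
      have e3 : lp z₀ ≤ Real.log C₀ := lp_le_of_norm_le hl (by
        rwa [Real.exp_log (by linarith [norm_nonneg (a : ℂ)])])
      have e4 : lp (φ (g (uu 0))) ≤ Real.log C₀ := by
        by_contra hlt
        nlinarith [mul_pos hθ (sub_pos.2 (not_le.1 hlt))]
      rw [hC.h0, hφ1.mul (In.const _ ξ) (hu 0), hφ1.const,
        lp_unit_mul (norm_root hp0 (by exact_mod_cast hξ))] at e2
      obtain ⟨w₁, w₂, hw₁, hw₂, hw⟩ := hAC _ (σ g) hA (by nlinarith)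
      have hst : ∀ {ψ : Ω → ℂ}, Sp (uu J₀) z₀ ψ → ∀ i, ψ (tt (i + 1)) ^ p + a = ψ (tt i) ^ q :=
        fun hψ i => hψ.bwd (hC.ht (i + 1)) ht i i.lt_succ_self
      obtain ⟨s₁, hs₁, e5⟩ := hφ1.rot (alg_of_mem (hXz J₀) hS) (ht _) hp0 (hXp J₀) (hP _ le_rfl)
        (w := w₁) (add_right_cancel (hw₁.trans (hst hφ1 J₀).symm))
      have hφ2 := hφ1.gal (hXG _ hs₁)
      obtain ⟨s₂, hs₂, e6⟩ := hφ2.rot (alg_of_mem (hXz (J₀ + 1)) hS) (ht _) hp0 (hXp (J₀ + 1))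
        (hP _ (by omega)) (w := w₂) (add_right_cancel (hw₂.trans (e5 ▸ (hst hφ2 (J₀ + 1)).symm)))
      have hs := mul_mem hs₁ (hXm J₀.le_succ hs₂)
      exact ⟨s₁ * s₂, hs, fun z hz0 => hσ g _ hs ▸ hw z (hz0.trans e6)⟩)
  rw [filter_true, card_univ] at h1
  rw [mul_assoc]
  refine h1.trans (Nat.mul_le_mul_left _ (h2.trans (Nat.mul_le_mul_left _ (card_le_card ?_))))
  refine monotone_filter_right _ fun j _ hj => ?_
  exact hj (fun i => φ (γ j (tt (J₀ + 2 + i)))) rfl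
    (((hφ.gal (hγ.1 j)).bwd (hC.ht _) ht).shift le_rfl)

end Count

section Arith

theorem Sz_eval (P : Qb[X]) {d : ℕ} (hd : 0 < d) {H : ℝ} (hH : 1 ≤ H) : ∃ d' : ℕ, 0 < d' ∧
    ∃ H' : ℝ, 1 ≤ H' ∧ ∀ x, Sz x d H → Sz (P.eval x) d' H' := by
  induction P using Polynomial.induction_on' with
  | add P Q hP hQ =>
    obtain ⟨d₁, h1, H₁, h2, h3⟩ := hP
    obtain ⟨d₂, h4, H₂, h5, h6⟩ := hQ
    exact ⟨d₁ * d₂, by positivity, H₁ + H₂, by linarith, fun x hx => by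
      rw [eval_add]
      exact ((h3 x hx).mono (dvd_mul_right _ _) le_rfl).add
        ((h6 x hx).mono (dvd_mul_left _ _) le_rfl)⟩
  | monomial n c =>
    obtain ⟨d₁, h1, H₁, h2, h3⟩ := exists_Sz c
    exact ⟨d₁ * d ^ n, by positivity, H₁ * H ^ n, one_le_mul_of_one_le_of_one_le h2 (one_le_pow₀ hH),
      fun x hx => by rw [eval_monomial]; exact h3.mul (hx.pow n)⟩

theorem Sz_root {F : Qb[X]} (hF : F.Monic) {d : ℕ} {H : ℝ} (h : ∀ i, Sz (F.coeff i) d H) {x : Qb}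
    (hx : F.eval x = 0) : Sz x d (H + 1) := by
  refine ⟨IsIntegral.of_aeval_monic_of_isIntegral_coeff ((monic_scaleRoots_iff (d : Qb)).2 hF)
    ?_ ?_ fun i => ?_, fun g => ?_⟩
  · rw [natDegree_scaleRoots]
    intro h0
    rw [hF.natDegree_eq_zero.1 h0] at hx
    simp at hx
  · rw [scaleRoots_eval_mul, hx, mul_zero]; exact isIntegral_zero
  · rw [coeff_scaleRoots]
    rcases lt_trichotomy i F.natDegree with hi | rfl | hi
    · obtain ⟨e, he⟩ := Nat.exists_eq_add_of_lt hi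
      rw [show F.natDegree - i = e + 1 by omega, pow_succ, mul_comm, mul_assoc]
      exact ((isIntegral_natCast d).pow e).mul (h i).1
    · simpa [hF.coeff_natDegree] using isIntegral_one
    · simpa [coeff_eq_zero_of_natDegree_lt hi] using isIntegral_zero
  · let j : Qb →+* ℂ := (algebraMap Qb ℂ).comp (g : Qb →+* Qb)
    exact norm_root_le (F.map j) (hF.map j) H (fun i => by rw [coeff_map]; exact (h i).2 g) (j x)
      (by rw [eval_map, eval₂_hom, hx, map_zero])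

theorem Sz_ev2 {f : Qb[X][X]} (hf : f.Monic) {d : ℕ} (hd : 0 < d) {H : ℝ} (hH : 1 ≤ H) :
    ∃ d' : ℕ, 0 < d' ∧ ∃ H' : ℝ, 1 ≤ H' ∧ ∀ x y, Sz x d H → ev2 (RingHom.id Qb) f x y = 0 →
      Sz y d' H' := by
  choose d' hd' H' hH' h using fun i => Sz_eval (f.coeff i) hd hH
  have h0 : 0 ≤ ∑ i ∈ f.support, H' i := sum_nonneg fun i _ => by linarith [hH' i]
  refine ⟨∏ i ∈ f.support, d' i, prod_pos fun i _ => hd' i, ∑ i ∈ f.support, H' i + 1,
    by linarith, fun x y hx hy => Sz_root (hf.map _) (fun i => ?_) (ev2_eq_eval _ f x y ▸ hy)⟩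
  rw [coeff_map]
  by_cases hi : i ∈ f.support
  · exact (h i x hx).mono (dvd_prod_of_mem _ hi)
      (single_le_sum (f := H') (fun i _ => by linarith [hH' i]) hi)
  · rw [notMem_support_iff.1 hi, map_zero]
    exact Sz.zero.mono dvd_rfl h0

theorem Sz_mono {p q m T d : ℕ} {H : ℝ} (hH : 1 ≤ H) {u t : ℕ → Qb} (h : ∀ i, Sz (u i) d H)
    (k : PK p q 0 m T) : Sz (mono k u t) (d ^ (T + q * m)) (H ^ (T + q * m)) := by
  have h1 := ((h m).pow k.1).mul (Sz.prod univ fun (i : Fin (m + 0)) _ => (h i).pow (k.2 i))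
  rw [prod_pow_eq_pow_sum, prod_pow_eq_pow_sum, ← pow_add, ← pow_add] at h1
  have h2 : (k.1 : ℕ) + ∑ i, (k.2 i : ℕ) ≤ T + q * m := add_le_add k.1.2.le
    ((sum_le_card_nsmul _ _ q fun i _ => (k.2 i).2.le).trans_eq (by simp [mul_comm]))
  exact h1.mono (pow_dvd_pow _ h2) (pow_le_pow_right₀ hH h2)

theorem exists_fix (f : Qb[X][X]) : ∃ G : Subgroup Gal, G.index ≠ 0 ∧ ∀ g ∈ G, ∀ x y,
    ((g (ev2 (RingHom.id Qb) f x y) : Qb) : ℂ) =
      ev2 (RingHom.id ℂ) (f.map (mapRingHom (algebraMap Qb ℂ))) (g x : Qb) (g y : Qb) := by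
  refine ⟨Fix ℚ (f.coeffs.biUnion coeffs : Finset Qb), index_Fix_ne_zero (finite_toSet _),
    fun g hg x y => ?_⟩
  have h1 : f.map (mapRingHom (g : Qb →+* Qb)) = f := by
    ext i j : 2
    by_cases h : (f.coeff i).coeff j = 0
    · simp [h]
    · simpa using mem_Fix.1 hg _ (mem_coe.2 (mem_biUnion.2
        ⟨_, coeff_mem_coeffs (fun h0 => h (by simp [h0])), coeff_mem_coeffs h⟩))
  have h2 := ev2_map (g : Qb →+* Qb) (RingHom.id Qb) f x y
  rw [RingHom.comp_id, ← ev2_id_map (g : Qb →+* Qb), h1] at h2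
  rw [ev2_id_map]
  exact (congrArg (algebraMap Qb ℂ) h2).trans (ev2_map _ _ _ _ _)

theorem ineq {N n I T m q E Y J : ℕ} {B C η c₁ c₂ : ℝ} (hN : 0 < N) (hn : 0 < n) (hB : 1 ≤ B)
    (hC : 1 ≤ C) (hη : 0 < η) (hη1 : η ≤ 1) (hc₁ : 0 ≤ c₁) (hc₂ : 0 ≤ c₂)
    (h1 : (Y : ℝ) * (Real.log B + Real.log N + T + m + 1) ≤ J) (h2 : (Y : ℝ) * Real.log η⁻¹ ≤ J)
    (hY1 : 2 * (4 * Real.log (2 * n) + 4 + 2 * Real.log C +
      I * ((q + 1) * c₁ + c₂ + 1 + Real.log n)) ≤ Y) (hY2 : 4 * E ≤ Y) :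
    4 * Real.log (2 * (N * n : ℕ)) + 2 * Real.log (B * (C / η ^ E)) +
      I * ((T + q * m) * c₁ + c₂ + Real.log (N * n : ℕ)) ≤ J := by
  have hN' : (1 : ℝ) ≤ N := by exact_mod_cast hN
  have hn' : (1 : ℝ) ≤ n := by exact_mod_cast hn
  have hY2' : 4 * (E : ℝ) ≤ Y := by exact_mod_cast hY2
  rw [Nat.cast_mul, show (2 : ℝ) * (N * n) = N * (2 * n) by ring,
    Real.log_mul (by positivity) (by positivity), Real.log_mul (x := B) (by positivity)
    (by positivity), Real.log_mul (x := N) (by positivity) (by positivity),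
    Real.log_div (by positivity) (by positivity), Real.log_pow]
  rw [Real.log_inv] at h2
  have b1 := Real.log_nonneg hB
  have b2 := Real.log_nonneg hN'
  have b3 := Real.log_nonneg hn'
  have b4 := Real.log_nonneg hC
  have b5 := Real.log_nonneg (show (1 : ℝ) ≤ 2 * n by linarith)
  have b6 := Real.log_nonpos hη.le hη1
  have b7 : (0 : ℝ) ≤ T := by positivity
  have b8 : (0 : ℝ) ≤ m := by positivity
  have b9 : (0 : ℝ) ≤ q := by positivity
  generalize Real.log B = b at *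
  generalize Real.log N = v at *
  generalize Real.log (2 * n) = l₂ at *
  generalize Real.log n = l at *
  generalize Real.log C = c at *
  generalize Real.log η = e at *
  set L := b + v + T + m + 1 with hL
  have hL1 : 0 ≤ L - 1 := by linarith
  have a1 : (T + q * m) * c₁ + c₂ + (v + l) ≤ ((q + 1) * c₁ + c₂ + 1 + l) * L := by
    have : (T + q * m : ℝ) ≤ (q + 1) * L := by nlinarith
    nlinarith [mul_le_mul_of_nonneg_right this hc₁, mul_nonneg hc₂ hL1, mul_nonneg b3 hL1]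
  have a2 := mul_le_mul_of_nonneg_left a1 (show (0 : ℝ) ≤ I by positivity)
  have a3 := mul_le_mul_of_nonneg_right hY1 (show 0 ≤ L by linarith)
  nlinarith [mul_nonneg b5 hL1, mul_nonneg b4 hL1, mul_le_mul_of_nonneg_right hY2' (neg_nonneg.2 b6)]

end Arith

end Pool.Agent.MP_09973c_nt.H69
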